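import Pool.Agent.Helper88.FC.Main

set_option autoImplicit false

namespace Pool.Agent.Helper88.FC

open scoped BigOperators
open MvPolynomial Finset

/-- If all degrees are at least `r = n τ`, a representation only uses the degree `r`, and its
barycentre is on the diagonal. -/
lemma rep_homog {n : ℕ} (S : Finset (Fin n →₀ ℕ)) (r : ℕ) (hS : ∀ s ∈ S, r ≤ s.degree) (τ : ℚ)
    (hτ : (n : ℚ) * τ = r) (w : S → ℚ) (hw : IsRep S τ w) :
    (∀ s, w s ≠ 0 → s.1.degree = r) ∧ ∀ i, ∑ s, w s * ((s.1 i : ℕ) : ℚ) = τ := by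
  have h0 : ∀ s : S, ∑ i : Fin n, w s * ((s.1 i : ℕ) : ℚ) = w s * (s.1.degree : ℚ) := by
    intro s
    rw [← Finset.mul_sum, Finsupp.degree_eq_sum]
    push_cast
    rfl
  have h1 : ∑ i : Fin n, ∑ s, w s * ((s.1 i : ℕ) : ℚ) = ∑ s, w s * (s.1.degree : ℚ) := by
    rw [Finset.sum_comm]
    exact Finset.sum_congr rfl fun s _ => h0 s
  have h2 : ∑ i : Fin n, ∑ s, w s * ((s.1 i : ℕ) : ℚ) ≤ ∑ _i : Fin n, τ :=
    Finset.sum_le_sum fun i _ => hw.2.2 i
  have h3 : ∑ _i : Fin n, τ = r := by simp [hτ]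
  have h4 : ∀ s ∈ (Finset.univ : Finset S), w s * (r : ℚ) ≤ w s * (s.1.degree : ℚ) := by
    intro s _
    apply mul_le_mul_of_nonneg_left _ (hw.1 s)
    exact_mod_cast hS s.1 s.2
  have h5 : ∑ s, w s * (r : ℚ) = r := by rw [← Finset.sum_mul, hw.2.1, one_mul]
  have h6 : ∑ s, w s * (s.1.degree : ℚ) = r := by
    apply le_antisymm
    · rw [← h1, ← h3]; exact h2
    · conv_lhs => rw [← h5]
      exact Finset.sum_le_sum h4
  constructor
  · intro s hs
    have h7 := (Finset.sum_eq_sum_iff_of_le h4).1 (by rw [h5, h6]) s (Finset.mem_univ s)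
    have h8 := mul_left_cancel₀ hs h7
    exact_mod_cast h8.symm
  · intro i
    have h9 : ∀ i ∈ (Finset.univ : Finset (Fin n)), ∑ s, w s * ((s.1 i : ℕ) : ℚ) ≤ τ :=
      fun i _ => hw.2.2 i
    exact (Finset.sum_eq_sum_iff_of_le h9).1 (by rw [h1, h6, h3]) i (Finset.mem_univ i)

lemma linf_coeff_zero {n : ℕ} (a : Fin n → ℂ) : (linf a).coeff 0 = 0 := by
  by_contra hne
  have := linf_ord a 0 hne
  simp at this

lemma linf_coeff_single {n : ℕ} (a : Fin n → ℂ) (j : Fin n) :
    (linf a).coeff (Finsupp.single j 1) = a j := by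
  classical
  unfold linf
  rw [coeff_sum, Finset.sum_eq_single j]
  · rw [coeff_C_mul, coeff_X, if_pos rfl, mul_one]
  · intro l _ hl
    rw [coeff_C_mul, coeff_X, if_neg, mul_zero]
    intro heq
    exact hl ((Finsupp.single_left_inj one_ne_zero).1 heq)
  · intro hj'; exact absurd (Finset.mem_univ j) hj'

/-- Part B for linear changes of coordinates. -/
theorem partB_linear {n : ℕ} (f h : MvPolynomial (Fin n) ℂ) (hf : ∀ s ∈ f.support, 2 ≤ s.degree)
    (M : Matrix (Fin n) (Fin n) ℂ) (hM : M.det ≠ 0)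
    (hh : bind₁ (fun j => linf (M j)) f = h) (r : ℕ) (hr : ∀ s ∈ h.support, r ≤ s.degree)
    (hn : 0 < n) (w : h.support → ℚ) (hw : IsRep h.support ((r : ℚ) / n) w)
    (huniq : ∀ w' : h.support → ℚ, IsRep h.support ((r : ℚ) / n) w' → w' = w) (N : ℕ) :
    ∃ m : ℕ, N ≤ m ∧ facL (f ^ m) ≠ 0 := by
  have hn' : (n : ℚ) ≠ 0 := Nat.cast_ne_zero.2 hn.ne'
  refine partB f h hf (fun j => linf (M j)) (fun i => linf_coeff_zero _) ?_ hh ((r : ℚ) / n) w hw
    ?_ huniq N
  · have : (Matrix.of fun i j => (linf (M i)).coeff (Finsupp.single j 1)) = M := by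
      ext i j
      rw [Matrix.of_apply, linf_coeff_single]
    rw [this]
    exact hM
  · exact (rep_homog h.support r hr _ (by field_simp) w hw).2

/-- The lowest form is a sum of `r`-th powers of `n` independent linear forms. -/
theorem cor_diag {n : ℕ} (hn : 0 < n) (f : MvPolynomial (Fin n) ℂ) (r : ℕ) (hr : 2 ≤ r)
    (g : Matrix (Fin n) (Fin n) ℂ) (hg : g.det ≠ 0)
    (hf : Ord (r + 1) (f - ∑ i, (linf (g i)) ^ r)) (N : ℕ) :
    ∃ m : ℕ, N ≤ m ∧ facL (f ^ m) ≠ 0 := by
  classical
  have hn' : (n : ℚ) ≠ 0 := Nat.cast_ne_zero.2 hn.ne'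
  have hr' : (r : ℚ) ≠ 0 := Nat.cast_ne_zero.2 (by omega)
  have hunit : IsUnit g.det := isUnit_iff_ne_zero.2 hg
  have hgM : g * g⁻¹ = 1 := Matrix.mul_nonsing_inv _ hunit
  have hMdet : (g⁻¹).det ≠ 0 := by
    rw [Matrix.det_nonsing_inv, Ring.inverse_eq_inv']
    exact inv_ne_zero hg
  set φ : Fin n → MvPolynomial (Fin n) ℂ := fun j => linf (g⁻¹ j) with hφ
  -- the transform
  have hR : Ord (r + 1) (bind₁ φ f - ∑ i, (X i) ^ r) := by
    have h1 := Ord.bind (φ := φ) (fun i => linf_ord _) hf
    rw [map_sub, map_sum] at h1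
    have h2 : ∀ i, bind₁ φ ((linf (g i)) ^ r) = (X i) ^ r := by
      intro i
      rw [map_pow, hφ, linf_comp, hgM, linf_one]
    rw [Finset.sum_congr rfl fun i _ => h2 i] at h1
    exact h1
  have hX : ∀ s : Fin n →₀ ℕ, (∑ i, (X i : MvPolynomial (Fin n) ℂ) ^ r).coeff s ≠ 0 →
      ∃ i, s = Finsupp.single i r := by
    intro s hs
    rw [coeff_sum] at hs
    obtain ⟨i, _, hi⟩ := Finset.exists_ne_zero_of_sum_ne_zero hs
    rw [coeff_X_pow] at hi
    split_ifs at hi with h
    · exact ⟨i, h.symm⟩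
    · exact absurd rfl hi
  have hX1 : ∀ i : Fin n, (∑ i, (X i : MvPolynomial (Fin n) ℂ) ^ r).coeff
      (Finsupp.single i r) = 1 := by
    intro i
    rw [coeff_sum, Finset.sum_eq_single i]
    · rw [coeff_X_pow, if_pos rfl]
    · intro j _ hj
      rw [coeff_X_pow, if_neg]
      intro heq
      exact hj ((Finsupp.single_left_inj (by omega)).1 heq)
    · intro h; exact absurd (Finset.mem_univ i) h
  have hco : ∀ s : Fin n →₀ ℕ, s.degree ≤ r →
      (bind₁ φ f).coeff s = (∑ i, (X i : MvPolynomial (Fin n) ℂ) ^ r).coeff s := by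
    intro s hs
    by_contra hne
    have h1 := hR s (by rw [coeff_sub]; exact sub_ne_zero.2 hne)
    omega
  have hmem : ∀ i : Fin n, Finsupp.single i r ∈ (bind₁ φ f).support := by
    intro i
    rw [mem_support_iff, hco _ (by simp), hX1]
    exact one_ne_zero
  have hlow : ∀ s ∈ (bind₁ φ f).support, r ≤ s.degree := by
    intro s hs
    by_contra hlt
    push Not at hlt
    rw [mem_support_iff, hco s hlt.le] at hs
    obtain ⟨i, rfl⟩ := hX s hs
    simp at hlt
  have hdeg : ∀ s ∈ (bind₁ φ f).support, s.degree = r → ∃ i, s = Finsupp.single i r := by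
    intro s hs hd
    rw [mem_support_iff, hco s hd.le] at hs
    exact hX s hs
  have hfo : ∀ s ∈ f.support, 2 ≤ s.degree := by
    intro s hs
    by_contra hlt
    push Not at hlt
    rw [mem_support_iff] at hs
    have h1 : (f - ∑ i, (linf (g i)) ^ r).coeff s = 0 := by
      by_contra hne
      have := hf s hne
      omega
    rw [coeff_sub, sub_eq_zero] at h1
    rw [h1] at hs
    have h2 : Ord r (∑ i, (linf (g i)) ^ r) := by
      apply Ord.sum
      intro i _
      have := (linf_ord (g i)).pow r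
      rwa [mul_one] at this
    have := h2 s hs
    omega
  -- the filtered support
  have hfilt : (bind₁ φ f).support.filter (fun s => s.degree = r) =
      Finset.univ.image (fun i : Fin n => Finsupp.single i r) := by
    ext s
    rw [Finset.mem_filter, Finset.mem_image]
    constructor
    · rintro ⟨h1, h2⟩
      obtain ⟨i, hi⟩ := hdeg s h1 h2
      exact ⟨i, Finset.mem_univ i, hi.symm⟩
    · rintro ⟨i, _, rfl⟩
      exact ⟨hmem i, by simp⟩
  have hinj : Function.Injective (fun i : Fin n => (Finsupp.single i r : Fin n →₀ ℕ)) := by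
    intro i j hij
    exact (Finsupp.single_left_inj (by omega)).1 hij
  have hsum : ∀ F : (Fin n →₀ ℕ) → ℚ, ∑ s : (bind₁ φ f).support,
      (if s.1.degree = r then F s.1 else 0) = ∑ i, F (Finsupp.single i r) := by
    intro F
    rw [Finset.sum_coe_sort (bind₁ φ f).support (fun s => if s.degree = r then F s else 0),
      ← Finset.sum_filter, hfilt, Finset.sum_image (fun i _ j _ h => hinj h)]
  have hrep : IsRep (bind₁ φ f).support ((r : ℚ) / n)
      (fun s => if s.1.degree = r then 1 / (n : ℚ) else 0) := by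
    refine ⟨fun s => ?_, ?_, fun i => ?_⟩
    · show (0 : ℚ) ≤ if s.1.degree = r then 1 / (n : ℚ) else 0
      split_ifs
      · positivity
      · exact le_rfl
    · rw [hsum (fun _ => 1 / (n : ℚ))]
      simp [hn']
    · have h1 : ∀ s : (bind₁ φ f).support,
          (if s.1.degree = r then 1 / (n : ℚ) else 0) * ((s.1 i : ℕ) : ℚ) =
          if s.1.degree = r then 1 / (n : ℚ) * ((s.1 i : ℕ) : ℚ) else 0 := by
        intro s; split_ifs <;> simp
      rw [Finset.sum_congr rfl fun s _ => h1 s, hsum (fun s => 1 / (n : ℚ) * ((s i : ℕ) : ℚ)),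
        Finset.sum_eq_single i]
      · rw [Finsupp.single_eq_same]
        apply le_of_eq
        ring
      · intro j _ hj
        rw [Finsupp.single_eq_of_ne hj.symm]; simp
      · intro h; exact absurd (Finset.mem_univ i) h
  refine partB_linear f (bind₁ φ f) hfo g⁻¹ hMdet rfl r hlow hn _ hrep ?_ N
  intro w' hw'
  obtain ⟨h1, h2⟩ := rep_homog _ r hlow _ (by field_simp) w' hw'
  funext s
  by_cases hs : s.1.degree = r
  · rw [if_pos hs]
    obtain ⟨i, hi⟩ := hdeg s.1 s.2 hs
    have h3 := h2 i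
    rw [Finset.sum_eq_single s] at h3
    · rw [hi, Finsupp.single_eq_same] at h3
      rw [eq_div_iff hn'] at h3
      rw [eq_div_iff hn']
      have : r * (w' s * n) = r * (1 : ℚ) := by linear_combination h3
      exact mul_left_cancel₀ hr' this
    · intro s' _ hne
      by_cases h0 : w' s' = 0
      · rw [h0, zero_mul]
      · obtain ⟨j, hj⟩ := hdeg s'.1 s'.2 (h1 s' h0)
        have hji : j ≠ i := by
          rintro rfl
          exact hne (Subtype.ext (by rw [hj, hi]))
        rw [hj, Finsupp.single_eq_of_ne hji.symm]; simp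
    · intro h; exact absurd (Finset.mem_univ s) h
  · rw [if_neg hs]
    by_contra h0
    exact hs (h1 s h0)

/-- The lowest form is a power of the product of `n` independent linear forms. -/
theorem cor_prod {n : ℕ} (hn : 0 < n) (f : MvPolynomial (Fin n) ℂ) (k : ℕ) (hk : 2 ≤ n * k)
    (c : ℂ) (hc : c ≠ 0) (g : Matrix (Fin n) (Fin n) ℂ) (hg : g.det ≠ 0)
    (hf : Ord (n * k + 1) (f - C c * ∏ i, (linf (g i)) ^ k)) (N : ℕ) :
    ∃ m : ℕ, N ≤ m ∧ facL (f ^ m) ≠ 0 := by
  classical
  have hn' : (n : ℚ) ≠ 0 := Nat.cast_ne_zero.2 hn.ne'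
  have hunit : IsUnit g.det := isUnit_iff_ne_zero.2 hg
  have hgM : g * g⁻¹ = 1 := Matrix.mul_nonsing_inv _ hunit
  have hMdet : (g⁻¹).det ≠ 0 := by
    rw [Matrix.det_nonsing_inv, Ring.inverse_eq_inv']
    exact inv_ne_zero hg
  set φ : Fin n → MvPolynomial (Fin n) ℂ := fun j => linf (g⁻¹ j) with hφ
  have hmono : (∏ i : Fin n, (X i : MvPolynomial (Fin n) ℂ) ^ k) = monomial (cst n k) 1 := by
    rw [monomial_eq, C_1, one_mul]
    symm
    exact Finsupp.prod_fintype _ _ fun i => by rw [pow_zero]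
  have hR : Ord (n * k + 1) (bind₁ φ f - monomial (cst n k) c) := by
    have h1 := Ord.bind (φ := φ) (fun i => linf_ord _) hf
    rw [map_sub, map_mul, bind₁_C_right, map_prod] at h1
    have h2 : ∀ i, bind₁ φ ((linf (g i)) ^ k) = (X i) ^ k := by
      intro i
      rw [map_pow, hφ, linf_comp, hgM, linf_one]
    rw [Finset.prod_congr rfl fun i _ => h2 i, hmono, C_mul_monomial, mul_one] at h1
    exact h1
  have hco : ∀ s : Fin n →₀ ℕ, s.degree ≤ n * k →
      (bind₁ φ f).coeff s = (monomial (cst n k) c : MvPolynomial (Fin n) ℂ).coeff s := by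
    intro s hs
    by_contra hne
    have h1 := hR s (by rw [coeff_sub]; exact sub_ne_zero.2 hne)
    omega
  have hmem : cst n k ∈ (bind₁ φ f).support := by
    rw [mem_support_iff, hco _ (degree_cst n k).le, coeff_monomial, if_pos rfl]
    exact hc
  have hlow' : ∀ s ∈ (bind₁ φ f).support, s.degree ≤ n * k → s = cst n k := by
    intro s hs hd
    rw [mem_support_iff, hco s hd, coeff_monomial] at hs
    by_contra hne
    rw [if_neg (Ne.symm hne)] at hs
    exact hs rfl
  have hlow : ∀ s ∈ (bind₁ φ f).support, n * k ≤ s.degree := by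
    intro s hs
    by_contra hlt
    push Not at hlt
    have := hlow' s hs hlt.le
    rw [this, degree_cst] at hlt
    exact lt_irrefl _ hlt
  have hfo : ∀ s ∈ f.support, 2 ≤ s.degree := by
    intro s hs
    by_contra hlt
    push Not at hlt
    rw [mem_support_iff] at hs
    have h1 : (f - C c * ∏ i, (linf (g i)) ^ k).coeff s = 0 := by
      by_contra hne
      have := hf s hne
      omega
    rw [coeff_sub, sub_eq_zero] at h1
    rw [h1] at hs
    have h2 : Ord (∑ _i : Fin n, k * 1) (∏ i, (linf (g i)) ^ k) :=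
      Ord.prod _ _ _ fun i _ => (linf_ord (g i)).pow k
    have h3 := (Ord.any (P := (C c : MvPolynomial (Fin n) ℂ))).mul h2
    have h4 := h3 s hs
    have h5 : 0 + ∑ _i : Fin n, k * 1 = n * k := by simp
    omega
  have hτ : ((n * k : ℕ) : ℚ) / n = k := by
    push_cast
    field_simp
  have hsum : ∀ F : (Fin n →₀ ℕ) → ℚ, ∑ s : (bind₁ φ f).support,
      (if s.1 = cst n k then F s.1 else 0) = F (cst n k) := by
    intro F
    rw [Finset.sum_coe_sort (bind₁ φ f).support (fun s => if s = cst n k then F s else 0),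
      Finset.sum_ite_eq', if_pos hmem]
  have hrep : IsRep (bind₁ φ f).support (((n * k : ℕ) : ℚ) / n)
      (fun s => if s.1 = cst n k then (1 : ℚ) else 0) := by
    refine ⟨fun s => ?_, ?_, fun i => ?_⟩
    · show (0 : ℚ) ≤ if s.1 = cst n k then (1 : ℚ) else 0
      split_ifs
      · exact zero_le_one
      · exact le_rfl
    · exact hsum (fun _ => 1)
    · have h1 : ∀ s : (bind₁ φ f).support,
          (if s.1 = cst n k then (1 : ℚ) else 0) * ((s.1 i : ℕ) : ℚ) =
          if s.1 = cst n k then ((s.1 i : ℕ) : ℚ) else 0 := by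
        intro s; split_ifs <;> simp
      rw [Finset.sum_congr rfl fun s _ => h1 s, hsum (fun s => ((s i : ℕ) : ℚ)), hτ, cst_apply]
  refine partB_linear f (bind₁ φ f) hfo g⁻¹ hMdet rfl (n * k) hlow hn _ hrep ?_ N
  intro w' hw'
  obtain ⟨h1, -⟩ := rep_homog _ (n * k) hlow _ (by push_cast; field_simp) w' hw'
  have h2 : ∀ s, w' s ≠ 0 → s.1 = cst n k := fun s hs => hlow' s.1 s.2 (h1 s hs).le
  have h3 : w' ⟨cst n k, hmem⟩ = 1 := by
    have h4 := hw'.2.1
    rwa [Finset.sum_eq_single ⟨cst n k, hmem⟩] at h4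
    · intro s _ hne
      by_contra h0
      exact hne (Subtype.ext (h2 s h0))
    · intro h; exact absurd (Finset.mem_univ _) h
  funext s
  by_cases hs : s.1 = cst n k
  · rw [if_pos hs]
    have : s = ⟨cst n k, hmem⟩ := Subtype.ext hs
    rw [this, h3]
  · rw [if_neg hs]
    by_contra h0
    exact hs (h2 s h0)

/-- A complex symmetric invertible matrix is of the form `gᵀ g`. -/
lemma exists_sqrt {n : ℕ} (S : Matrix (Fin n) (Fin n) ℂ) (hS : S.transpose = S)
    (hdet : S.det ≠ 0) : ∃ g : Matrix (Fin n) (Fin n) ℂ, g.transpose * g = S := by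
  classical
  have hassoc : ∀ M : Matrix (Fin n) (Fin n) ℂ, M.transpose = M →
      QuadraticMap.associated (R := ℂ) (M.toQuadraticForm') = Matrix.toLinearMap₂' ℂ M := by
    intro M hM
    unfold Matrix.toQuadraticForm'
    apply QuadraticMap.associated_left_inverse
    intro x y
    simp [Matrix.toLinearMap₂'_apply']
    rw [Matrix.dotProduct_mulVec, ← Matrix.mulVec_transpose, hM, dotProduct_comm]
  have key : ∀ M : Matrix (Fin n) (Fin n) ℂ, M.transpose = M → M.det ≠ 0 →
      (QuadraticMap.associated (R := ℂ) (M.toQuadraticForm')).SeparatingLeft := by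
    intro M hM hd
    rw [hassoc M hM]
    exact (LinearMap.separatingLeft_toLinearMap₂'_iff_det_ne_zero).2 hd
  obtain ⟨e⟩ := QuadraticForm.equivalent_of_isAlgClosed S.toQuadraticForm'
    (1 : Matrix (Fin n) (Fin n) ℂ).toQuadraticForm' (key S hS hdet)
    (key 1 (Matrix.transpose_one) (by simp))
  have hB : ∀ x y, Matrix.toLinearMap₂' ℂ (1 : Matrix (Fin n) (Fin n) ℂ) (e x) (e y) =
      Matrix.toLinearMap₂' ℂ S x y := by
    intro x y
    rw [← hassoc S hS, ← hassoc 1 Matrix.transpose_one]
    simp only [QuadraticMap.associated_apply]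
    have hadd : e x + e y = e (x + y) := (map_add e.toLinearEquiv x y).symm
    rw [hadd, e.map_app, e.map_app, e.map_app]
  refine ⟨Matrix.of fun i j => e (Pi.single j 1) i, ?_⟩
  ext j l
  have h := hB (Pi.single j 1) (Pi.single l 1)
  rw [Matrix.toLinearMap₂'_apply', Matrix.toLinearMap₂'_apply', Matrix.one_mulVec,
    Matrix.mulVec_single_one, single_one_dotProduct] at h
  simp only [Matrix.mul_apply, Matrix.transpose_apply, Matrix.of_apply]
  exact h

/-- The Hessian matrix at the origin. -/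
noncomputable def hess {n : ℕ} (f : MvPolynomial (Fin n) ℂ) : Matrix (Fin n) (Fin n) ℂ :=
  Matrix.of fun i j => constantCoeff (pderiv i (pderiv j f))

lemma hess_coeff {n : ℕ} (f : MvPolynomial (Fin n) ℂ) (i j : Fin n) :
    hess f i j = f.coeff (Finsupp.single i 1 + Finsupp.single j 1) *
      ((((Finsupp.single i 1 : Fin n →₀ ℕ) j : ℕ) : ℂ) + 1) := by
  unfold hess
  rw [Matrix.of_apply, constantCoeff_eq, coeff_pderiv, coeff_pderiv]
  simp

/-- A polynomial with vanishing jet of order two has order at least three. -/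
lemma ord_three {n : ℕ} (f : MvPolynomial (Fin n) ℂ) (h0 : constantCoeff f = 0)
    (h1 : ∀ i, constantCoeff (pderiv i f) = 0) (h2 : hess f = 0) : Ord 3 f := by
  intro s hs
  by_contra hlt
  push Not at hlt
  apply hs
  by_cases hd0 : s.degree = 0
  · rw [Finsupp.degree_eq_zero_iff] at hd0
    rw [hd0]
    exact h0
  obtain ⟨i, hi⟩ := exists_pos_of_degree_pos s (by omega)
  have hsi : s = (s - Finsupp.single i 1) + Finsupp.single i 1 := by
    rw [tsub_add_cancel_of_le]
    intro l
    by_cases hl : l = i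
    · subst hl; simp; omega
    · rw [Finsupp.single_eq_of_ne hl]; exact Nat.zero_le _
  have hd := degree_sub_single s i hi
  by_cases hd1 : s.degree = 1
  · have h3 : (s - Finsupp.single i 1).degree = 0 := by omega
    rw [Finsupp.degree_eq_zero_iff] at h3
    have h4 := h1 i
    rw [constantCoeff_eq, coeff_pderiv] at h4
    rw [hsi, h3]
    simpa using h4
  · obtain ⟨j, hj⟩ := exists_pos_of_degree_pos (s - Finsupp.single i 1) (by omega)
    have hd' := degree_sub_single (s - Finsupp.single i 1) j hj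
    have h3 : (s - Finsupp.single i 1 - Finsupp.single j 1).degree = 0 := by omega
    rw [Finsupp.degree_eq_zero_iff] at h3
    have hsj : s - Finsupp.single i 1 =
        (s - Finsupp.single i 1 - Finsupp.single j 1) + Finsupp.single j 1 := by
      rw [tsub_add_cancel_of_le]
      intro l
      by_cases hl : l = j
      · subst hl
        rw [Finsupp.single_eq_same]
        exact hj
      · rw [Finsupp.single_eq_of_ne hl]; exact Nat.zero_le _
    rw [h3, zero_add] at hsj
    rw [hsj] at hsi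
    have h4 := hess_coeff f j i
    rw [h2, Matrix.zero_apply] at h4
    rw [hsi]
    have h5 : ((((Finsupp.single j 1 : Fin n →₀ ℕ) i : ℕ) : ℂ) + 1) ≠ 0 := by
      exact_mod_cast Nat.succ_ne_zero ((Finsupp.single j 1 : Fin n →₀ ℕ) i)
    exact (mul_eq_zero.1 h4.symm).resolve_right h5

lemma pderiv_linf {n : ℕ} (a : Fin n → ℂ) (i : Fin n) : pderiv i (linf a) = C (a i) := by
  classical
  unfold linf
  rw [map_sum, Finset.sum_eq_single i]
  · rw [pderiv_C_mul, pderiv_X_self]
    simp
  · intro j _ hj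
    rw [pderiv_C_mul, pderiv_X_of_ne hj]
    simp
  · intro h; exact absurd (Finset.mem_univ i) h

/-- The function has a nondegenerate critical point with value `0` at the origin. -/
theorem cor_hess {n : ℕ} (hn : 0 < n) (f : MvPolynomial (Fin n) ℂ) (h0 : constantCoeff f = 0)
    (h1 : ∀ i, constantCoeff (pderiv i f) = 0) (h2 : (hess f).det ≠ 0) (N : ℕ) :
    ∃ m : ℕ, N ≤ m ∧ facL (f ^ m) ≠ 0 := by
  classical
  have hsymm : (hess f).transpose = hess f := by
    ext i j
    rw [Matrix.transpose_apply, hess_coeff, hess_coeff, add_comm (Finsupp.single j 1)]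
    by_cases hij : i = j
    · subst hij; rfl
    · rw [Finsupp.single_eq_of_ne hij, Finsupp.single_eq_of_ne (Ne.symm hij)]
  obtain ⟨g, hg⟩ := exists_sqrt ((1 / 2 : ℂ) • hess f)
    (by rw [Matrix.transpose_smul, hsymm]) (by
      rw [Matrix.det_smul]
      exact mul_ne_zero (pow_ne_zero _ (by norm_num)) h2)
  have hgdet : g.det ≠ 0 := by
    intro h
    have h3 := congrArg Matrix.det hg
    rw [Matrix.det_mul, h, mul_zero, Matrix.det_smul] at h3
    exact mul_ne_zero (pow_ne_zero _ (by norm_num)) h2 h3.symm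
  refine cor_diag hn f 2 le_rfl g hgdet ?_ N
  have hlin0 : ∀ a : Fin n → ℂ, constantCoeff (linf a) = 0 := fun a => linf_coeff_zero a
  apply ord_three
  · rw [map_sub, h0, map_sum]
    simp [hlin0]
  · intro i
    rw [map_sub, map_sub, h1 i, map_sum, map_sum, zero_sub, neg_eq_zero]
    apply Finset.sum_eq_zero
    intro l _
    rw [pow_two, Derivation.leibniz]
    simp [hlin0]
  · ext i j
    have h3 : hess f i j = 2 * ∑ l, g l i * g l j := by
      have h4 := congrFun (congrFun hg i) j
      rw [Matrix.mul_apply] at h4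
      simp only [Matrix.transpose_apply, Matrix.smul_apply, smul_eq_mul] at h4
      rw [h4]; ring
    have h5 : hess (f - ∑ l, (linf (g l)) ^ 2) i j = hess f i j -
        ∑ l, constantCoeff (pderiv i (pderiv j ((linf (g l)) ^ 2))) := by
      unfold hess
      rw [Matrix.of_apply, Matrix.of_apply, map_sub, map_sub, map_sub, map_sum, map_sum, map_sum]
    rw [h5, h3, Matrix.zero_apply, Finset.mul_sum, ← Finset.sum_sub_distrib]
    apply Finset.sum_eq_zero
    intro l _
    rw [pow_two, Derivation.leibniz, pderiv_linf]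
    simp only [smul_eq_mul, map_add, Derivation.leibniz, pderiv_linf, pderiv_C, map_mul, hlin0,
      constantCoeff_C]
    ring

end Pool.Agent.Helper88.FC
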