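import Mathlib

set_option autoImplicit false

namespace Pool.Agent.Helper88.FC

open scoped BigOperators
open MvPolynomial Finset

/-- The multifactorial of an exponent vector. -/
noncomputable def fact {n : ℕ} (e : Fin n →₀ ℕ) : ℕ := ∏ i, (e i).factorial

/-- The product of the binomial coefficients `e i` over `a i`. -/
noncomputable def mbin {n : ℕ} (a b : Fin n →₀ ℕ) : ℕ := ∏ i, ((a i + b i).choose (a i))

lemma fact_add {n : ℕ} (a b : Fin n →₀ ℕ) : fact (a + b) = mbin a b * (fact a * fact b) := by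
  unfold fact mbin
  rw [← Finset.prod_mul_distrib, ← Finset.prod_mul_distrib]
  apply Finset.prod_congr rfl
  intro i _
  rw [Finsupp.add_apply, ← mul_assoc]
  rw [Nat.choose_symm_add]
  exact (Nat.add_choose_mul_factorial_mul_factorial _ _).symm

/-- The coefficient with respect to the divided power basis. -/
noncomputable def dp {n : ℕ} (P : MvPolynomial (Fin n) ℂ) (e : Fin n →₀ ℕ) : ℂ :=
  P.coeff e * (fact e : ℂ)

lemma dp_add {n : ℕ} (P Q : MvPolynomial (Fin n) ℂ) (e : Fin n →₀ ℕ) :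
    dp (P + Q) e = dp P e + dp Q e := by
  simp [dp, add_mul]

lemma dp_sub {n : ℕ} (P Q : MvPolynomial (Fin n) ℂ) (e : Fin n →₀ ℕ) :
    dp (P - Q) e = dp P e - dp Q e := by
  simp [dp, sub_mul]

lemma dp_mul {n : ℕ} (P Q : MvPolynomial (Fin n) ℂ) (e : Fin n →₀ ℕ) :
    dp (P * Q) e = ∑ x ∈ antidiagonal e, (mbin x.1 x.2 : ℂ) * (dp P x.1 * dp Q x.2) := by
  classical
  unfold dp
  rw [coeff_mul, Finset.sum_mul]
  apply Finset.sum_congr rfl
  intro x hx
  rw [HasAntidiagonal.mem_antidiagonal] at hx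
  rw [← hx, fact_add]
  push_cast
  ring

section Val

variable {Γ₀ : Type*} [LinearOrderedCommGroupWithZero Γ₀] (v : Valuation ℂ Γ₀)

lemma v_nat (k : ℕ) : v (k : ℂ) ≤ 1 := by
  induction k with
  | zero => simp
  | succ k ih =>
    rw [Nat.cast_succ]
    exact (v.map_add _ _).trans (max_le ih (by simp))

lemma v_int (k : ℤ) : v (k : ℂ) ≤ 1 := by
  obtain ⟨m, rfl | rfl⟩ := k.eq_nat_or_neg
  · exact_mod_cast v_nat v m
  · rw [Int.cast_neg, Valuation.map_neg]
    exact_mod_cast v_nat v m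

/-- Hypothesis: `p` is a prime of positive valuation. -/
structure Pr (p : ℕ) : Prop where
  prime : p.Prime
  lt : v (p : ℂ) < 1

variable {v} {p : ℕ}

lemma Pr.lt_of_dvd (hp : Pr v p) {k : ℕ} (h : p ∣ k) : v (k : ℂ) < 1 := by
  obtain ⟨m, rfl⟩ := h
  rw [Nat.cast_mul, map_mul]
  exact mul_lt_one_of_nonneg_of_lt_one_left zero_le hp.lt (v_nat v m)

lemma Pr.eq_one (hp : Pr v p) {k : ℕ} (h : ¬ p ∣ k) : v (k : ℂ) = 1 := by
  have hc : Nat.Coprime k p := (Nat.Prime.coprime_iff_not_dvd hp.prime).2 h |>.symm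
  have hb := Nat.gcd_eq_gcd_ab k p
  rw [hc] at hb
  refine le_antisymm (v_nat v k) ?_
  by_contra hlt
  push Not at hlt
  have h1 : v (1 : ℂ) < 1 := by
    have : (1 : ℂ) = (k : ℂ) * (Nat.gcdA k p : ℂ) + (p : ℂ) * (Nat.gcdB k p : ℂ) := by
      exact_mod_cast hb
    rw [this]
    refine (v.map_add _ _).trans_lt (max_lt ?_ ?_)
    · rw [map_mul]
      exact mul_lt_one_of_nonneg_of_lt_one_left zero_le hlt (v_int v _)
    · rw [map_mul]
      exact mul_lt_one_of_nonneg_of_lt_one_left zero_le hp.lt (v_int v _)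
  rw [map_one] at h1
  exact lt_irrefl _ h1

lemma Pr.fact_eq_one (hp : Pr v p) {k : ℕ} (h : k < p) : v (k.factorial : ℂ) = 1 :=
  hp.eq_one (fun hd => by
    have := (hp.prime.dvd_factorial).1 hd
    omega)

lemma Pr.fact_lt_one (hp : Pr v p) {k : ℕ} (h : p ≤ k) : v (k.factorial : ℂ) < 1 :=
  hp.lt_of_dvd ((hp.prime.dvd_factorial).2 h)

/-- All exponents are smaller than `p`. -/
def Box {n : ℕ} (p : ℕ) (e : Fin n →₀ ℕ) : Prop := ∀ i, e i < p

lemma Pr.mfact_eq_one (hp : Pr v p) {n : ℕ} {e : Fin n →₀ ℕ} (h : Box p e) :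
    v (fact e : ℂ) = 1 := by
  unfold fact
  push_cast
  rw [map_prod]
  exact Finset.prod_eq_one (fun i _ => hp.fact_eq_one (h i))

lemma Pr.mfact_lt_one (hp : Pr v p) {n : ℕ} {e : Fin n →₀ ℕ} (h : ¬ Box p e) :
    v (fact e : ℂ) < 1 := by
  unfold Box at h
  push Not at h
  obtain ⟨i, hi⟩ := h
  apply hp.lt_of_dvd
  unfold fact
  exact ((hp.prime.dvd_factorial).2 hi).trans (Finset.dvd_prod_of_mem _ (Finset.mem_univ i))

variable (v) in
/-- Integral for the divided power basis. -/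
def InG {n : ℕ} (P : MvPolynomial (Fin n) ℂ) : Prop := ∀ e, v (dp P e) ≤ 1

variable (v) in
/-- Divisible by the maximal ideal for the divided power basis. -/
def InM {n : ℕ} (P : MvPolynomial (Fin n) ℂ) : Prop := ∀ e, v (dp P e) < 1

variable (v) in
/-- Integral in the ordinary sense. -/
def RU {n : ℕ} (P : MvPolynomial (Fin n) ℂ) : Prop := ∀ e, v (P.coeff e) ≤ 1

variable (v p) in
/-- The lattice spanned by integral polynomials and the maximal ideal times divided powers. -/
def InB {n : ℕ} (P : MvPolynomial (Fin n) ℂ) : Prop :=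
  InG v P ∧ ∀ e, ¬ Box p e → v (dp P e) < 1

section lem

variable {n : ℕ} {P Q : MvPolynomial (Fin n) ℂ}

lemma InG.add (hP : InG v P) (hQ : InG v Q) : InG v (P + Q) := fun e => by
  rw [dp_add]; exact (v.map_add _ _).trans (max_le (hP e) (hQ e))

lemma InM.add (hP : InM v P) (hQ : InM v Q) : InM v (P + Q) := fun e => by
  rw [dp_add]; exact (v.map_add _ _).trans_lt (max_lt (hP e) (hQ e))

lemma InM.sub (hP : InM v P) (hQ : InM v Q) : InM v (P - Q) := fun e => by
  rw [dp_sub]; exact (v.map_sub _ _).trans_lt (max_lt (hP e) (hQ e))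

lemma InB.add (hP : InB v p P) (hQ : InB v p Q) : InB v p (P + Q) :=
  ⟨hP.1.add hQ.1, fun e he => by
    rw [dp_add]; exact (v.map_add _ _).trans_lt (max_lt (hP.2 e he) (hQ.2 e he))⟩

lemma InG.mul (hP : InG v P) (hQ : InG v Q) : InG v (P * Q) := fun e => by
  rw [dp_mul]
  apply v.map_sum_le
  intro x _
  rw [map_mul, map_mul]
  exact mul_le_one' (v_nat v _) (mul_le_one' (hP _) (hQ _))

lemma InM.mul_left (hP : InG v P) (hQ : InM v Q) : InM v (P * Q) := fun e => by
  rw [dp_mul]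
  apply v.map_sum_lt one_ne_zero
  intro x _
  rw [map_mul, map_mul]
  exact mul_lt_one_of_nonneg_of_lt_one_right (v_nat v _) zero_le
    (mul_lt_one_of_nonneg_of_lt_one_right (hP _) zero_le (hQ _))

lemma InM.mul_right (hP : InM v P) (hQ : InG v Q) : InM v (P * Q) := by
  rw [mul_comm]; exact InM.mul_left hQ hP

lemma InM.inG (hP : InM v P) : InG v P := fun e => (hP e).le

lemma InM.inB (hP : InM v P) : InB v p P := ⟨hP.inG, fun e _ => hP e⟩

lemma RU.inG (hP : RU v P) : InG v P := fun e => by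
  unfold dp; rw [map_mul]; exact mul_le_one' (hP e) (v_nat v _)

lemma RU.inB (hp : Pr v p) (hP : RU v P) : InB v p P := ⟨hP.inG, fun e he => by
  unfold dp; rw [map_mul]
  exact mul_lt_one_of_nonneg_of_lt_one_right (hP e) zero_le (hp.mfact_lt_one he)⟩

lemma RU.add (hP : RU v P) (hQ : RU v Q) : RU v (P + Q) := fun e => by
  rw [coeff_add]; exact (v.map_add _ _).trans (max_le (hP e) (hQ e))

lemma RU.sub (hP : RU v P) (hQ : RU v Q) : RU v (P - Q) := fun e => by
  rw [coeff_sub]; exact (v.map_sub _ _).trans (max_le (hP e) (hQ e))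

lemma RU.mul (hP : RU v P) (hQ : RU v Q) : RU v (P * Q) := fun e => by
  classical
  rw [coeff_mul]
  apply v.map_sum_le
  intro x _
  rw [map_mul]
  exact mul_le_one' (hP _) (hQ _)

lemma RU.C {c : ℂ} (hc : v c ≤ 1) : RU v (C c : MvPolynomial (Fin n) ℂ) := fun e => by
  classical
  rw [coeff_C]
  split_ifs
  · exact hc
  · simp

lemma RU.one : RU v (1 : MvPolynomial (Fin n) ℂ) := by
  have := RU.C (v := v) (n := n) (c := 1) (by simp)
  simpa using this

lemma RU.monomial {c : ℂ} (hc : v c ≤ 1) (s : Fin n →₀ ℕ) :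
    RU v (monomial s c : MvPolynomial (Fin n) ℂ) := fun e => by
  classical
  rw [coeff_monomial]
  split_ifs
  · exact hc
  · simp

lemma RU.X (i : Fin n) : RU v (X i : MvPolynomial (Fin n) ℂ) :=
  RU.monomial (by simp) _

lemma RU.pow (hP : RU v P) (k : ℕ) : RU v (P ^ k) := by
  induction k with
  | zero => rw [pow_zero]; exact RU.one
  | succ k ih => rw [pow_succ]; exact ih.mul hP

lemma RU.prod {ι : Type*} (s : Finset ι) (F : ι → MvPolynomial (Fin n) ℂ)
    (h : ∀ i ∈ s, RU v (F i)) : RU v (∏ i ∈ s, F i) := by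
  classical
  induction s using Finset.induction_on with
  | empty => simpa using RU.one
  | insert a s ha ih =>
    rw [Finset.prod_insert ha]
    exact (h a (by simp)).mul (ih fun i hi => h i (by simp [hi]))

lemma InG.one : InG v (1 : MvPolynomial (Fin n) ℂ) := RU.one.inG

lemma InG.prod {ι : Type*} (s : Finset ι) (F : ι → MvPolynomial (Fin n) ℂ)
    (h : ∀ i ∈ s, InG v (F i)) : InG v (∏ i ∈ s, F i) := by
  classical
  induction s using Finset.induction_on with
  | empty => simpa using InG.one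
  | insert a s ha ih =>
    rw [Finset.prod_insert ha]
    exact (h a (by simp)).mul (ih fun i hi => h i (by simp [hi]))

lemma InG.sum {ι : Type*} (s : Finset ι) (F : ι → MvPolynomial (Fin n) ℂ)
    (h : ∀ i ∈ s, InG v (F i)) : InG v (∑ i ∈ s, F i) := by
  classical
  induction s using Finset.induction_on with
  | empty => intro e; simp [dp]
  | insert a s ha ih =>
    rw [Finset.sum_insert ha]
    exact (h a (by simp)).add (ih fun i hi => h i (by simp [hi]))

lemma InM.zero : InM v (0 : MvPolynomial (Fin n) ℂ) := fun e => by simp [dp]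

lemma InM.sum {ι : Type*} (s : Finset ι) (F : ι → MvPolynomial (Fin n) ℂ)
    (h : ∀ i ∈ s, InM v (F i)) : InM v (∑ i ∈ s, F i) := by
  classical
  induction s using Finset.induction_on with
  | empty => simpa using InM.zero
  | insert a s ha ih =>
    rw [Finset.sum_insert ha]
    exact (h a (by simp)).add (ih fun i hi => h i (by simp [hi]))

lemma InB.sum {ι : Type*} (s : Finset ι) (F : ι → MvPolynomial (Fin n) ℂ)
    (h : ∀ i ∈ s, InB v p (F i)) : InB v p (∑ i ∈ s, F i) := by
  classical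
  induction s using Finset.induction_on with
  | empty => simpa using InM.zero.inB
  | insert a s ha ih =>
    rw [Finset.sum_insert ha]
    exact (h a (by simp)).add (ih fun i hi => h i (by simp [hi]))

lemma InB.mul (hp : Pr v p) (hP : InB v p P) (hQ : InB v p Q) : InB v p (P * Q) := by
  refine ⟨hP.1.mul hQ.1, fun e he => ?_⟩
  rw [dp_mul]
  apply v.map_sum_lt one_ne_zero
  intro x hx
  rw [HasAntidiagonal.mem_antidiagonal] at hx
  rw [map_mul, map_mul]
  by_cases h1 : Box p x.1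
  · by_cases h2 : Box p x.2
    · refine mul_lt_one_of_nonneg_of_lt_one_left zero_le ?_
        (mul_le_one' (hP.1 _) (hQ.1 _))
      unfold Box at he
      push Not at he
      obtain ⟨i, hi⟩ := he
      apply hp.lt_of_dvd
      unfold mbin
      refine dvd_trans ?_ (Finset.dvd_prod_of_mem _ (Finset.mem_univ i))
      apply hp.prime.dvd_choose_add (h1 i) (h2 i)
      rw [← hx] at hi
      simpa using hi
    · exact mul_lt_one_of_nonneg_of_lt_one_right (v_nat v _) zero_le
        (mul_lt_one_of_nonneg_of_lt_one_right (hP.1 _) zero_le (hQ.2 _ h2))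
  · exact mul_lt_one_of_nonneg_of_lt_one_right (v_nat v _) zero_le
      (mul_lt_one_of_nonneg_of_lt_one_left zero_le (hP.2 _ h1) (hQ.1 _))

lemma InB.prod (hp : Pr v p) {ι : Type*} (s : Finset ι) (F : ι → MvPolynomial (Fin n) ℂ)
    (h : ∀ i ∈ s, InB v p (F i)) : InB v p (∏ i ∈ s, F i) := by
  classical
  induction s using Finset.induction_on with
  | empty => simpa using RU.one.inB hp
  | insert a s ha ih =>
    rw [Finset.prod_insert ha]
    exact (h a (by simp)).mul hp (ih fun i hi => h i (by simp [hi]))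

end lem

end Val

/-- The divided power `q ^ k / k!`. -/
noncomputable def dpow {n : ℕ} (q : MvPolynomial (Fin n) ℂ) (k : ℕ) : MvPolynomial (Fin n) ℂ :=
  C ((k.factorial : ℂ)⁻¹) * q ^ k

lemma dpow_zero {n : ℕ} (q : MvPolynomial (Fin n) ℂ) : dpow q 0 = 1 := by
  simp [dpow]

lemma dpow_mul {n : ℕ} (r q : MvPolynomial (Fin n) ℂ) (k : ℕ) :
    dpow (r * q) k = r ^ k * dpow q k := by
  unfold dpow; rw [mul_pow]; ring

lemma dpow_add {n : ℕ} (x y : MvPolynomial (Fin n) ℂ) (k : ℕ) :
    dpow (x + y) k = ∑ m ∈ antidiagonal k, dpow x m.1 * dpow y m.2 := by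
  unfold dpow
  rw [(Commute.all x y).add_pow', Finset.mul_sum]
  apply Finset.sum_congr rfl
  intro m hm
  rw [HasAntidiagonal.mem_antidiagonal] at hm
  have h1 : (k.factorial : ℂ) ≠ 0 := Nat.cast_ne_zero.2 (Nat.factorial_ne_zero _)
  have h2 : (m.1.factorial : ℂ) ≠ 0 := Nat.cast_ne_zero.2 (Nat.factorial_ne_zero _)
  have h3 : (m.2.factorial : ℂ) ≠ 0 := Nat.cast_ne_zero.2 (Nat.factorial_ne_zero _)
  have h4 : ((k.choose m.1 : ℕ) : ℂ) * (m.1.factorial : ℂ) * (m.2.factorial : ℂ) =
      (k.factorial : ℂ) := by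
    rw [← hm, Nat.choose_symm_add]
    exact_mod_cast Nat.add_choose_mul_factorial_mul_factorial m.1 m.2
  have h5 : (k.factorial : ℂ)⁻¹ * ((k.choose m.1 : ℕ) : ℂ) =
      (m.1.factorial : ℂ)⁻¹ * (m.2.factorial : ℂ)⁻¹ := by
    field_simp
    rw [← h4]
  rw [nsmul_eq_mul]
  have h6 : ((k.choose m.1 : ℕ) : MvPolynomial (Fin n) ℂ) = C ((k.choose m.1 : ℕ) : ℂ) := by
    simp
  rw [h6]
  calc C ((k.factorial : ℂ)⁻¹) * (C ((k.choose m.1 : ℕ) : ℂ) * (x ^ m.1 * y ^ m.2))
      = (C ((k.factorial : ℂ)⁻¹) * C ((k.choose m.1 : ℕ) : ℂ)) * (x ^ m.1 * y ^ m.2) := by ring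
    _ = (C ((m.1.factorial : ℂ)⁻¹) * C ((m.2.factorial : ℂ)⁻¹)) * (x ^ m.1 * y ^ m.2) := by
        rw [← C_mul, h5, C_mul]
    _ = _ := by ring

lemma dpow_X_coeff {n : ℕ} (i : Fin n) (k : ℕ) (e : Fin n →₀ ℕ) :
    dp (dpow (X i) k) e = if Finsupp.single i k = e then 1 else 0 := by
  classical
  unfold dp dpow
  rw [coeff_C_mul, coeff_X_pow]
  split_ifs with h
  · subst h
    have : fact (Finsupp.single i k) = k.factorial := by
      unfold fact
      rw [Finset.prod_eq_single i]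
      · simp
      · intro j _ hj
        rw [Finsupp.single_eq_of_ne hj]; rfl
      · simp
    rw [this]
    have h1 : (k.factorial : ℂ) ≠ 0 := Nat.cast_ne_zero.2 (Nat.factorial_ne_zero _)
    field_simp
  · simp

end Pool.Agent.Helper88.FC
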