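import Pool.Agent.Helper88.FC.DP

set_option autoImplicit false

namespace Pool.Agent.Helper88.FC

open scoped BigOperators
open MvPolynomial Finset

/-- All monomials have total degree at least `k`. -/
def Ord {n : ℕ} (k : ℕ) (P : MvPolynomial (Fin n) ℂ) : Prop :=
  ∀ s, P.coeff s ≠ 0 → k ≤ s.degree

section ord

variable {n : ℕ} {P Q : MvPolynomial (Fin n) ℂ} {k l : ℕ}

lemma Ord.mono (h : k ≤ l) (hP : Ord l P) : Ord k P := fun s hs => h.trans (hP s hs)

lemma Ord.add (hP : Ord k P) (hQ : Ord k Q) : Ord k (P + Q) := fun s hs => by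
  by_contra hlt
  apply hs
  have h1 : P.coeff s = 0 := by
    by_contra h; exact hlt (hP s h)
  have h2 : Q.coeff s = 0 := by
    by_contra h; exact hlt (hQ s h)
  rw [coeff_add, h1, h2, add_zero]

lemma Ord.zero : Ord k (0 : MvPolynomial (Fin n) ℂ) := fun s hs => by simp at hs

lemma Ord.sum {ι : Type*} (s : Finset ι) (F : ι → MvPolynomial (Fin n) ℂ)
    (h : ∀ i ∈ s, Ord k (F i)) : Ord k (∑ i ∈ s, F i) := by
  classical
  induction s using Finset.induction_on with
  | empty => simpa using Ord.zero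
  | insert a s ha ih =>
    rw [Finset.sum_insert ha]
    exact (h a (by simp)).add (ih fun i hi => h i (by simp [hi]))

lemma Ord.mul (hP : Ord k P) (hQ : Ord l Q) : Ord (k + l) (P * Q) := fun s hs => by
  classical
  rw [coeff_mul] at hs
  obtain ⟨x, hx, hne⟩ := Finset.exists_ne_zero_of_sum_ne_zero hs
  rw [HasAntidiagonal.mem_antidiagonal] at hx
  have h1 := hP x.1 (left_ne_zero_of_mul hne)
  have h2 := hQ x.2 (right_ne_zero_of_mul hne)
  rw [← hx, map_add]
  omega

lemma Ord.any : Ord 0 P := fun _ _ => Nat.zero_le _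

lemma Ord.pow (hP : Ord k P) (m : ℕ) : Ord (m * k) (P ^ m) := by
  induction m with
  | zero => rw [zero_mul]; exact Ord.any
  | succ m ih => rw [pow_succ, Nat.succ_mul]; exact ih.mul hP

lemma Ord.prod {ι : Type*} (s : Finset ι) (F : ι → MvPolynomial (Fin n) ℂ) (c : ι → ℕ)
    (h : ∀ i ∈ s, Ord (c i) (F i)) : Ord (∑ i ∈ s, c i) (∏ i ∈ s, F i) := by
  classical
  induction s using Finset.induction_on with
  | empty => simpa using Ord.any
  | insert a s ha ih =>
    rw [Finset.prod_insert ha, Finset.sum_insert ha]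
    exact (h a (by simp)).mul (ih fun i hi => h i (by simp [hi]))

lemma Ord.X (i : Fin n) : Ord 1 (X i : MvPolynomial (Fin n) ℂ) := fun s hs => by
  classical
  rw [coeff_X] at hs
  split_ifs at hs with h
  · rw [← h]; simp
  · simp at hs

lemma Ord.monomial {c : ℂ} (s : Fin n →₀ ℕ) : Ord s.degree (monomial s c) := fun t ht => by
  classical
  rw [coeff_monomial] at ht
  split_ifs at ht with h
  · rw [h]
  · simp at ht

end ord

section Val

variable {Γ₀ : Type*} [LinearOrderedCommGroupWithZero Γ₀] {v : Valuation ℂ Γ₀} {p : ℕ}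
variable {n : ℕ} {P Q : MvPolynomial (Fin n) ℂ}

lemma InG.pow (hP : InG v P) (k : ℕ) : InG v (P ^ k) := by
  induction k with
  | zero => rw [pow_zero]; exact InG.one
  | succ k ih => rw [pow_succ]; exact ih.mul hP

lemma InB.pow (hp : Pr v p) (hP : InB v p P) (k : ℕ) : InB v p (P ^ k) := by
  induction k with
  | zero => rw [pow_zero]; exact RU.one.inB hp
  | succ k ih => rw [pow_succ]; exact ih.mul hp hP

variable (v) in
/-- All divided powers are integral. -/
def DivG (q : MvPolynomial (Fin n) ℂ) : Prop := ∀ k, InG v (dpow q k)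

variable (v p) in
/-- All divided powers lie in the lattice. -/
def DivB (q : MvPolynomial (Fin n) ℂ) : Prop := ∀ k, InB v p (dpow q k)

lemma DivG.zero : DivG v (0 : MvPolynomial (Fin n) ℂ) := fun k => by
  rcases k with _ | k
  · rw [dpow_zero]; exact InG.one
  · have : dpow (0 : MvPolynomial (Fin n) ℂ) (k + 1) = 0 := by simp [dpow]
    rw [this]; exact InM.zero.inG

lemma DivB.zero (hp : Pr v p) : DivB v p (0 : MvPolynomial (Fin n) ℂ) := fun k => by
  rcases k with _ | k
  · rw [dpow_zero]; exact RU.one.inB hp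
  · have : dpow (0 : MvPolynomial (Fin n) ℂ) (k + 1) = 0 := by simp [dpow]
    rw [this]; exact InM.zero.inB

lemma DivG.add (hP : DivG v P) (hQ : DivG v Q) : DivG v (P + Q) := fun k => by
  rw [dpow_add]
  exact InG.sum _ _ fun m _ => (hP _).mul (hQ _)

lemma DivB.add (hp : Pr v p) (hP : DivB v p P) (hQ : DivB v p Q) : DivB v p (P + Q) :=
  fun k => by
    rw [dpow_add]
    exact InB.sum _ _ fun m _ => (hP _).mul hp (hQ _)

lemma DivG.mul (hP : InG v P) (hQ : DivG v Q) : DivG v (P * Q) := fun k => by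
  rw [dpow_mul]; exact (hP.pow k).mul (hQ k)

lemma DivB.mul (hp : Pr v p) (hP : InB v p P) (hQ : DivB v p Q) : DivB v p (P * Q) := fun k => by
  rw [dpow_mul]; exact (hP.pow hp k).mul hp (hQ k)

lemma DivG.sum {ι : Type*} (s : Finset ι) (F : ι → MvPolynomial (Fin n) ℂ)
    (h : ∀ i ∈ s, DivG v (F i)) : DivG v (∑ i ∈ s, F i) := by
  classical
  induction s using Finset.induction_on with
  | empty => simpa using DivG.zero
  | insert a s ha ih =>
    rw [Finset.sum_insert ha]
    exact (h a (by simp)).add (ih fun i hi => h i (by simp [hi]))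

lemma DivB.sum (hp : Pr v p) {ι : Type*} (s : Finset ι) (F : ι → MvPolynomial (Fin n) ℂ)
    (h : ∀ i ∈ s, DivB v p (F i)) : DivB v p (∑ i ∈ s, F i) := by
  classical
  induction s using Finset.induction_on with
  | empty => simpa using DivB.zero hp
  | insert a s ha ih =>
    rw [Finset.sum_insert ha]
    exact (h a (by simp)).add hp (ih fun i hi => h i (by simp [hi]))

lemma DivG.X (i : Fin n) : DivG v (X i : MvPolynomial (Fin n) ℂ) := fun k e => by
  rw [dpow_X_coeff]
  split_ifs <;> simp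

lemma DivB.X_mul_X (hp : Pr v p) (i j : Fin n) :
    DivB v p (X i * X j : MvPolynomial (Fin n) ℂ) := fun k => by
  classical
  rw [dpow_mul]
  by_cases hk : k < p
  · apply RU.inB hp
    apply ((RU.X i).pow k).mul
    unfold dpow
    apply RU.mul (RU.C _) ((RU.X j).pow k)
    rw [map_inv₀, hp.fact_eq_one hk, inv_one]
  · apply InM.inB
    apply InM.mul_right _ (DivG.X j k)
    intro e
    unfold dp
    rw [coeff_X_pow]
    split_ifs with h
    · rw [one_mul]
      apply hp.mfact_lt_one
      intro hb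
      have := hb i
      rw [← h] at this
      simp at this
      omega
    · simp

lemma exists_pos_of_degree_pos (s : Fin n →₀ ℕ) (h : 0 < s.degree) : ∃ i, 0 < s i := by
  by_contra hcon
  push Not at hcon
  have : s = 0 := by
    ext i
    have := hcon i
    simpa using this
  rw [this] at h
  simp at h

lemma monomial_eq_mul_X (s : Fin n →₀ ℕ) (c : ℂ) (i : Fin n) (h : 0 < s i) :
    (monomial s c : MvPolynomial (Fin n) ℂ) =
      monomial (s - Finsupp.single i 1) c * X i := by
  classical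
  have e : s = (s - Finsupp.single i 1) + Finsupp.single i 1 := by
    rw [tsub_add_cancel_of_le]
    intro j
    by_cases hj : j = i
    · subst hj; simp; omega
    · rw [Finsupp.single_eq_of_ne hj]; exact Nat.zero_le _
  conv_lhs => rw [e]
  rw [X, monomial_mul, mul_one]

lemma degree_sub_single (s : Fin n →₀ ℕ) (i : Fin n) (h : 0 < s i) :
    s.degree = (s - Finsupp.single i 1).degree + 1 := by
  classical
  have e : s = (s - Finsupp.single i 1) + Finsupp.single i 1 := by
    rw [tsub_add_cancel_of_le]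
    intro j
    by_cases hj : j = i
    · subst hj; simp; omega
    · rw [Finsupp.single_eq_of_ne hj]; exact Nat.zero_le _
  conv_lhs => rw [e]
  rw [map_add]
  simp

lemma DivG.monomial {c : ℂ} (hc : v c ≤ 1) (s : Fin n →₀ ℕ) (hs : 0 < s.degree) :
    DivG v (monomial s c) := by
  obtain ⟨i, hi⟩ := exists_pos_of_degree_pos s hs
  rw [monomial_eq_mul_X s c i hi]
  exact DivG.mul (RU.monomial hc _).inG (DivG.X i)

lemma DivB.monomial (hp : Pr v p) {c : ℂ} (hc : v c ≤ 1) (s : Fin n →₀ ℕ) (hs : 2 ≤ s.degree) :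
    DivB v p (monomial s c) := by
  obtain ⟨i, hi⟩ := exists_pos_of_degree_pos s (by omega)
  have h1 := degree_sub_single s i hi
  obtain ⟨j, hj⟩ := exists_pos_of_degree_pos (s - Finsupp.single i 1) (by omega)
  rw [monomial_eq_mul_X s c i hi, monomial_eq_mul_X _ c j hj, mul_assoc]
  exact DivB.mul hp ((RU.monomial hc _).inB hp) (DivB.X_mul_X hp j i)

lemma DivG.of_RU (hP : RU v P) (ho : Ord 1 P) : DivG v P := by
  rw [P.as_sum]
  apply DivG.sum
  intro s hs
  exact DivG.monomial (hP s) s (ho s (mem_support_iff.1 hs))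

lemma DivB.of_RU (hp : Pr v p) (hP : RU v P) (ho : Ord 2 P) : DivB v p P := by
  rw [P.as_sum]
  apply DivB.sum hp
  intro s hs
  exact DivB.monomial hp (hP s) s (ho s (mem_support_iff.1 hs))

/-- Substituting a polynomial map without constant term. -/
lemma bind_eq_sum (φ : Fin n → MvPolynomial (Fin n) ℂ) (P : MvPolynomial (Fin n) ℂ) :
    bind₁ φ P = ∑ s ∈ P.support, C (dp P s) * ∏ i, dpow (φ i) (s i) := by
  conv_lhs => rw [P.as_sum, map_sum]
  apply Finset.sum_congr rfl
  intro s _
  rw [bind₁_monomial]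
  unfold dp dpow fact
  rw [Finset.prod_mul_distrib]
  have h1 : ∏ i, (C (((s i).factorial : ℂ)⁻¹) : MvPolynomial (Fin n) ℂ) =
      C ((∏ i, ((s i).factorial : ℂ))⁻¹) := by
    rw [← Finset.prod_inv_distrib, map_prod]
  rw [h1, ← mul_assoc, ← C_mul]
  have h2 : (∏ i, ((s i).factorial : ℂ)) ≠ 0 :=
    Finset.prod_ne_zero_iff.2 fun i _ => Nat.cast_ne_zero.2 (Nat.factorial_ne_zero _)
  push_cast
  rw [mul_assoc, mul_inv_cancel₀ h2, mul_one]
  congr 1
  exact Finset.prod_subset (Finset.subset_univ _) fun i _ hi => by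
    rw [Finsupp.notMem_support_iff.1 hi, pow_zero]

lemma dp_C_mul (c : ℂ) (e : Fin n →₀ ℕ) : dp (C c * P) e = c * dp P e := by
  unfold dp; rw [coeff_C_mul, mul_assoc]

lemma InG.bind {φ : Fin n → MvPolynomial (Fin n) ℂ} (hφ : ∀ i, DivG v (φ i))
    (hP : InG v P) : InG v (bind₁ φ P) := by
  rw [bind_eq_sum]
  apply InG.sum
  intro s _ e
  rw [dp_C_mul, map_mul]
  exact mul_le_one' (hP s) (InG.prod _ _ (fun i _ => hφ i _) e)

lemma InM.bind {φ : Fin n → MvPolynomial (Fin n) ℂ} (hφ : ∀ i, DivG v (φ i))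
    (hP : InM v P) : InM v (bind₁ φ P) := by
  rw [bind_eq_sum]
  apply InM.sum
  intro s _ e
  rw [dp_C_mul, map_mul]
  exact mul_lt_one_of_nonneg_of_lt_one_left zero_le (hP s)
    (InG.prod _ _ (fun i _ => hφ i _) e)

lemma bind_dpow (φ : Fin n → MvPolynomial (Fin n) ℂ) (P : MvPolynomial (Fin n) ℂ) (k : ℕ) :
    bind₁ φ (dpow P k) = dpow (bind₁ φ P) k := by
  unfold dpow
  rw [map_mul, map_pow, bind₁_C_right]

lemma Ord.bind {φ : Fin n → MvPolynomial (Fin n) ℂ} (hφ : ∀ i, Ord 1 (φ i)) {k : ℕ}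
    (hP : Ord k P) : Ord k (bind₁ φ P) := by
  rw [bind_eq_sum]
  apply Ord.sum
  intro s hs
  have h1 : Ord (∑ i, s i) (∏ i, dpow (φ i) (s i)) := by
    apply Ord.prod
    intro i _
    unfold dpow
    have := (Ord.any (P := (C (((s i).factorial : ℂ)⁻¹) : MvPolynomial (Fin n) ℂ))).mul
      ((hφ i).pow (s i))
    simpa using this
  rw [← Finsupp.degree_eq_sum] at h1
  have h2 := (Ord.any (P := (C (dp P s) : MvPolynomial (Fin n) ℂ))).mul h1
  rw [zero_add] at h2
  exact h2.mono (hP s (mem_support_iff.1 hs))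

end Val

end Pool.Agent.Helper88.FC
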