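import Mathlib

set_option autoImplicit false

namespace Pool.Agent.Helper88.FC

open scoped BigOperators

/-- For a finite set of nonzero complex numbers and all but finitely many primes, some valuation
of the complex numbers has residue characteristic `p` and is trivial on the set. -/
theorem exists_valuationSubring (X : Finset ℂ) (hX : ∀ x ∈ X, x ≠ 0) :
    ∃ N : ℕ, N ≠ 0 ∧ ∀ p : ℕ, p.Prime → ¬ p ∣ N →
      ∃ V : ValuationSubring ℂ, V.valuation (p : ℂ) < 1 ∧ ∀ x ∈ X, V.valuation x = 1 := by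
  classical
  let G : Finset ℂ := X ∪ X.image (fun x => x⁻¹)
  let R := Algebra.adjoin ℚ (G : Set ℂ)
  have : Algebra.FiniteType ℚ R := by
    rw [← Subalgebra.fg_iff_finiteType]
    exact ⟨G, rfl⟩
  obtain ⟨M, hM⟩ := Ideal.exists_maximal R
  let : Field (R ⧸ M) := Ideal.Quotient.field M
  have : Module.Finite ℚ (R ⧸ M) := finite_of_finite_type_of_isJacobsonRing ℚ (R ⧸ M)
  have : Algebra.IsAlgebraic ℚ (R ⧸ M) := Algebra.IsAlgebraic.of_finite ℚ (R ⧸ M)
  let T : Finset (R ⧸ M) :=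
    G.attach.image (fun x => Ideal.Quotient.mk M (⟨x.1, Algebra.subset_adjoin x.2⟩ : R))
  obtain ⟨y, hy0, hy⟩ : ∃ y : ℤ, y ≠ 0 ∧ ∀ x ∈ T, IsIntegral ℤ (y • x) :=
    exists_integral_multiples ℤ ℚ T
  have key : ∀ r ∈ Subring.closure (G : Set ℂ), ∃ h : r ∈ R, ∃ D : ℕ,
      IsIntegral ℤ (((y : ℤ) : R ⧸ M) ^ D * Ideal.Quotient.mk M ⟨r, h⟩) := by
    have hyint : IsIntegral ℤ ((y : ℤ) : R ⧸ M) := by
      simpa using (isIntegral_algebraMap (R := ℤ) (A := R ⧸ M) (x := y))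
    intro r hr
    induction hr using Subring.closure_induction with
    | mem x hx =>
      refine ⟨Algebra.subset_adjoin hx, 1, ?_⟩
      have := hy (Ideal.Quotient.mk M ⟨x, Algebra.subset_adjoin hx⟩)
        (Finset.mem_image.2 ⟨⟨x, hx⟩, Finset.mem_attach _ _, rfl⟩)
      rw [pow_one]
      rwa [zsmul_eq_mul] at this
    | zero =>
      refine ⟨R.zero_mem, 0, ?_⟩
      have : (⟨0, R.zero_mem⟩ : R) = 0 := rfl
      rw [this, map_zero, mul_zero]
      exact isIntegral_zero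
    | one =>
      refine ⟨R.one_mem, 0, ?_⟩
      have : (⟨1, R.one_mem⟩ : R) = 1 := rfl
      rw [this, map_one, mul_one, pow_zero]
      exact isIntegral_one
    | add a b _ _ iha ihb =>
      obtain ⟨ha, D, hD⟩ := iha
      obtain ⟨hb, E, hE⟩ := ihb
      refine ⟨R.add_mem ha hb, D + E, ?_⟩
      have e : (⟨a + b, R.add_mem ha hb⟩ : R) = ⟨a, ha⟩ + ⟨b, hb⟩ := rfl
      rw [e, map_add]
      have : (((y : ℤ) : R ⧸ M) ^ (D + E) *
          (Ideal.Quotient.mk M ⟨a, ha⟩ + Ideal.Quotient.mk M ⟨b, hb⟩)) =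
          ((y : ℤ) : R ⧸ M) ^ E * (((y : ℤ) : R ⧸ M) ^ D * Ideal.Quotient.mk M ⟨a, ha⟩) +
          ((y : ℤ) : R ⧸ M) ^ D * (((y : ℤ) : R ⧸ M) ^ E * Ideal.Quotient.mk M ⟨b, hb⟩) := by
        ring
      rw [this]
      exact ((hyint.pow E).mul hD).add ((hyint.pow D).mul hE)
    | neg a _ iha =>
      obtain ⟨ha, D, hD⟩ := iha
      refine ⟨R.neg_mem ha, D, ?_⟩
      have e : (⟨-a, R.neg_mem ha⟩ : R) = -⟨a, ha⟩ := rfl
      rw [e, map_neg, mul_neg]
      exact hD.neg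
    | mul a b _ _ iha ihb =>
      obtain ⟨ha, D, hD⟩ := iha
      obtain ⟨hb, E, hE⟩ := ihb
      refine ⟨R.mul_mem ha hb, D + E, ?_⟩
      have e : (⟨a * b, R.mul_mem ha hb⟩ : R) = ⟨a, ha⟩ * ⟨b, hb⟩ := rfl
      rw [e, map_mul]
      have : (((y : ℤ) : R ⧸ M) ^ (D + E) *
          (Ideal.Quotient.mk M ⟨a, ha⟩ * Ideal.Quotient.mk M ⟨b, hb⟩)) =
          (((y : ℤ) : R ⧸ M) ^ D * Ideal.Quotient.mk M ⟨a, ha⟩) *
          (((y : ℤ) : R ⧸ M) ^ E * Ideal.Quotient.mk M ⟨b, hb⟩) := by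
        ring
      rw [this]
      exact hD.mul hE
  refine ⟨y.natAbs, by simpa using hy0, fun p hp hpN => ?_⟩
  have hI : Ideal.span {(p : Subring.closure (G : Set ℂ))} ≠ ⊤ := by
    intro h
    rw [Ideal.eq_top_iff_one, Ideal.mem_span_singleton'] at h
    obtain ⟨r, hr⟩ := h
    obtain ⟨hrR, D, hD⟩ := key r.1 r.2
    have hr' : r.1 * (p : ℂ) = 1 := by
      have := congrArg Subtype.val hr
      simpa using this
    have hrR' : (⟨r.1, hrR⟩ : R) * (p : R) = 1 := by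
      apply Subtype.ext
      simpa using hr'
    have hK : Ideal.Quotient.mk M ⟨r.1, hrR⟩ * (p : R ⧸ M) = 1 := by
      have := congrArg (Ideal.Quotient.mk M) hrR'
      simpa using this
    have : CharZero (R ⧸ M) := algebraRat.charZero _
    have hp0 : (p : R ⧸ M) ≠ 0 := Nat.cast_ne_zero.2 hp.ne_zero
    have e1 : (((y : ℤ) : R ⧸ M) ^ D * Ideal.Quotient.mk M ⟨r.1, hrR⟩) =
        algebraMap ℚ (R ⧸ M) ((y : ℚ) ^ D / (p : ℚ)) := by
      rw [map_div₀, map_pow, map_intCast, map_natCast, eq_div_iff hp0, mul_assoc, hK, mul_one]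
    rw [e1] at hD
    have hD' : IsIntegral ℤ ((y : ℚ) ^ D / (p : ℚ)) := by
      obtain ⟨P, hP, hPe⟩ := hD
      refine ⟨P, hP, ?_⟩
      apply (algebraMap ℚ (R ⧸ M)).injective
      rw [map_zero, ← hPe, Polynomial.hom_eval₂]
      congr 1
      exact RingHom.ext_int _ _
    obtain ⟨z, hz⟩ := IsIntegrallyClosed.isIntegral_iff.1 hD'
    have hpq : (p : ℚ) ≠ 0 := Nat.cast_ne_zero.2 hp.ne_zero
    rw [eq_div_iff hpq] at hz
    have hz' : z * (p : ℤ) = y ^ D := by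
      have : ((z * (p : ℤ) : ℤ) : ℚ) = ((y ^ D : ℤ) : ℚ) := by
        push_cast
        simpa using hz
      exact_mod_cast this
    have hdvd : (p : ℤ) ∣ y ^ D := ⟨z, by rw [← hz']; ring⟩
    have : (p : ℤ) ∣ y := (Nat.prime_iff_prime_int.1 hp).dvd_of_dvd_pow hdvd
    exact hpN (by simpa [Int.natCast_dvd] using this)
  obtain ⟨V, hV1, hV2⟩ := Ideal.image_subset_nonunits_valuationSubring _ hI
  refine ⟨V, ?_, fun x hx => ?_⟩
  · have : (p : ℂ) ∈ V.nonunits := by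
      apply hV2
      exact ⟨(p : Subring.closure (G : Set ℂ)), Ideal.mem_span_singleton_self _, by
        simp⟩
    exact (ValuationSubring.mem_nonunits_iff V).1 this
  · have h1 : x ∈ V := hV1 (Subring.subset_closure (by simp [G, hx]))
    have h2 : x⁻¹ ∈ V := hV1 (Subring.subset_closure (by simp [G, hx]))
    have h1' := (V.valuation_le_one_iff x).2 h1
    have h2' := (V.valuation_le_one_iff x⁻¹).2 h2
    rw [map_inv₀] at h2'
    have hx0 : V.valuation x ≠ 0 := (Valuation.ne_zero_iff _).2 (hX x hx)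
    refine le_antisymm h1' ?_
    exact (inv_le_one₀ (zero_lt_iff.2 hx0)).1 h2'

end Pool.Agent.Helper88.FC
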