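import Pool.Agent.Helper88.FC.Socle
import Pool.Agent.Helper88.FC.Val

set_option autoImplicit false

namespace Pool.Agent.Helper88.FC

open scoped BigOperators
open MvPolynomial Finset

/-- The factorial functional. -/
noncomputable def facL {n : ℕ} (P : MvPolynomial (Fin n) ℂ) : ℂ :=
  ∑ s ∈ P.support, P.coeff s * ∏ i : Fin n, (((s i).factorial : ℕ) : ℂ)

/-- `w` is a system of convex weights on `S` whose barycentre has all coordinates at most `τ`. -/
def IsRep {n : ℕ} (S : Finset (Fin n →₀ ℕ)) (τ : ℚ) (w : S → ℚ) : Prop :=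
  (∀ s, 0 ≤ w s) ∧ ∑ s, w s = 1 ∧ ∀ i, ∑ s, w s * ((s.1 i : ℕ) : ℚ) ≤ τ

lemma facL_eq {n : ℕ} (P : MvPolynomial (Fin n) ℂ) : facL P = ∑ s ∈ P.support, dp P s := by
  unfold facL dp fact
  push_cast
  rfl

lemma facL_eq' {n : ℕ} (P : MvPolynomial (Fin n) ℂ) (T : Finset (Fin n →₀ ℕ))
    (h : P.support ⊆ T) : facL P = ∑ s ∈ T, dp P s := by
  rw [facL_eq]
  apply Finset.sum_subset h
  intro s _ hs
  rw [notMem_support_iff] at hs
  unfold dp
  rw [hs, zero_mul]

lemma facL_add {n : ℕ} (P Q : MvPolynomial (Fin n) ℂ) : facL (P + Q) = facL P + facL Q := by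
  classical
  rw [facL_eq' (P + Q) (P.support ∪ Q.support) support_add,
    facL_eq' P (P.support ∪ Q.support) Finset.subset_union_left,
    facL_eq' Q (P.support ∪ Q.support) Finset.subset_union_right, ← Finset.sum_add_distrib]
  exact Finset.sum_congr rfl fun s _ => dp_add _ _ _

lemma facL_C_mul {n : ℕ} (c : ℂ) (P : MvPolynomial (Fin n) ℂ) :
    facL (C c * P) = c * facL P := by
  have hsub : (C c * P).support ⊆ P.support := by
    intro s hs
    rw [mem_support_iff] at hs ⊢
    intro h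
    apply hs
    rw [coeff_C_mul, h, mul_zero]
  rw [facL_eq' _ _ hsub, facL_eq P, Finset.mul_sum]
  exact Finset.sum_congr rfl fun s _ => dp_C_mul _ _

lemma facL_pow {n : ℕ} (P : MvPolynomial (Fin n) ℂ) (m : ℕ) :
    facL (P ^ m) = (m.factorial : ℂ) * facL (dpow P m) := by
  unfold dpow
  rw [facL_C_mul, ← mul_assoc, mul_inv_cancel₀, one_mul]
  exact Nat.cast_ne_zero.2 (Nat.factorial_ne_zero _)

lemma facL_monomial {n : ℕ} (s : Fin n →₀ ℕ) (c : ℂ) :
    facL (monomial s c) = c * (fact s : ℂ) := by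
  classical
  rw [facL_eq' _ {s} support_monomial_subset, Finset.sum_singleton]
  unfold dp
  rw [coeff_monomial, if_pos rfl]

section Val

variable {Γ₀ : Type*} [LinearOrderedCommGroupWithZero Γ₀] {v : Valuation ℂ Γ₀} {p : ℕ}
variable {n : ℕ} {P Q : MvPolynomial (Fin n) ℂ}

lemma InM.facL_lt (hP : InM v P) : v (facL P) < 1 := by
  rw [facL_eq]
  exact v.map_sum_lt one_ne_zero fun s _ => hP s

lemma facL_ne_zero_of_unit (h : v (facL Q) = 1) (hP : InM v (P - Q)) : facL P ≠ 0 := by
  intro h0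
  have e : P = (P - Q) + Q := by ring
  have h1 : facL P = facL (P - Q) + facL Q := by
    conv_lhs => rw [e]
    rw [facL_add]
  rw [h0] at h1
  have h2 : facL Q = - facL (P - Q) := by linear_combination -h1
  rw [h2, Valuation.map_neg] at h
  exact absurd h hP.facL_lt.ne

end Val

/-- The multinomial expansion of a divided power. -/
lemma dpow_expand {n : ℕ} (h : MvPolynomial (Fin n) ℂ) (m : ℕ) :
    dpow h m = ∑ a ∈ h.support.piAntidiag m,
      ∏ s ∈ h.support, dpow (monomial s (h.coeff s)) (a s) := by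
  classical
  conv_lhs => unfold dpow
  conv_lhs => enter [2]; rw [h.as_sum]
  rw [Finset.sum_pow_eq_sum_piAntidiag, Finset.mul_sum]
  apply Finset.sum_congr rfl
  intro a ha
  rw [Finset.mem_piAntidiag] at ha
  have hm := Nat.multinomial_spec h.support a
  rw [ha.1] at hm
  unfold dpow
  rw [Finset.prod_mul_distrib, ← mul_assoc]
  congr 1
  have h1 : (m.factorial : ℂ) ≠ 0 := Nat.cast_ne_zero.2 (Nat.factorial_ne_zero _)
  have h2 : (∏ s ∈ h.support, ((a s).factorial : ℂ)) ≠ 0 :=
    Finset.prod_ne_zero_iff.2 fun i _ => Nat.cast_ne_zero.2 (Nat.factorial_ne_zero _)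
  have h3 : (∏ s ∈ h.support, ((a s).factorial : ℂ)) *
      (Nat.multinomial h.support a : ℂ) = (m.factorial : ℂ) := by
    exact_mod_cast hm
  have h4 : ((Nat.multinomial h.support a : ℕ) : MvPolynomial (Fin n) ℂ) =
      C ((Nat.multinomial h.support a : ℕ) : ℂ) := by simp
  have h5 : (m.factorial : ℂ)⁻¹ * (Nat.multinomial h.support a : ℂ) =
      (∏ s ∈ h.support, ((a s).factorial : ℂ))⁻¹ := by
    rw [eq_comm, inv_eq_iff_eq_inv, mul_inv, inv_inv]
    rw [eq_mul_inv_iff_mul_eq₀, h3]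
    intro h0
    rw [h0, mul_zero] at h3
    exact h1 h3.symm
  rw [h4, ← C_mul, ← map_prod, Finset.prod_inv_distrib, h5]

lemma prod_dpow {n : ℕ} (S : Finset (Fin n →₀ ℕ)) (c : (Fin n →₀ ℕ) → ℂ)
    (a : (Fin n →₀ ℕ) → ℕ) :
    ∏ s ∈ S, dpow (monomial s (c s)) (a s) =
      monomial (∑ s ∈ S, a s • s) (∏ s ∈ S, ((a s).factorial : ℂ)⁻¹ * (c s) ^ (a s)) := by
  classical
  unfold dpow
  induction S using Finset.induction_on with
  | empty => simp
  | insert b S hb ih =>
    rw [Finset.prod_insert hb, Finset.prod_insert hb, Finset.sum_insert hb, ih,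
      monomial_pow, C_mul_monomial, monomial_mul]

/-- A family of parameters. -/
lemma exists_params {ι : Type*} [Fintype ι] (τ : ℚ) (hτ : 0 < τ) (w : ι → ℚ) (hw : ∀ s, 0 ≤ w s) :
    ∃ K : ℕ, K ≠ 0 ∧ ∀ p : ℕ, p ≡ 1 [MOD K] → 1 < p →
      ∃ m : ℕ, (m : ℚ) * τ = (p : ℚ) - 1 ∧ ∀ s, ∃ k : ℕ, (k : ℚ) = m * w s := by
  classical
  have hnum : 0 < τ.num := Rat.num_pos.2 hτ
  refine ⟨τ.num.toNat * ∏ s, (w s).den, ?_, ?_⟩
  · apply mul_ne_zero
    · omega
    · exact Finset.prod_ne_zero_iff.2 fun s _ => (w s).den_nz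
  · intro p hp hp1
    have hdvd : (τ.num.toNat * ∏ s, (w s).den) ∣ p - 1 :=
      (Nat.modEq_iff_dvd' hp1.le).1 hp.symm
    obtain ⟨q, hq⟩ := hdvd
    have hq' : (p : ℚ) - 1 = (τ.num : ℚ) * (∏ s, ((w s).den : ℚ)) * q := by
      have h1 : ((p - 1 : ℕ) : ℚ) = ((τ.num.toNat * (∏ s, (w s).den) * q : ℕ) : ℚ) := by
        rw [hq]
      rw [Nat.cast_sub hp1.le] at h1
      push_cast at h1
      have h2 : ((τ.num.toNat : ℕ) : ℚ) = (τ.num : ℚ) := by
        have : ((τ.num.toNat : ℕ) : ℤ) = τ.num := Int.toNat_of_nonneg hnum.le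
        exact_mod_cast this
      rw [h2] at h1
      rw [h1]
    refine ⟨τ.den * (∏ s, (w s).den) * q, ?_, fun s => ?_⟩
    · rw [hq']
      push_cast
      have : (τ.den : ℚ) * τ = τ.num := by
        rw [mul_comm]; exact Rat.mul_den_eq_num τ
      calc (τ.den : ℚ) * (∏ s, ((w s).den : ℚ)) * q * τ
          = ((τ.den : ℚ) * τ) * (∏ s, ((w s).den : ℚ)) * q := by ring
        _ = _ := by rw [this]
    · have hws : ((w s).den : ℚ) * w s = (w s).num := by
        rw [mul_comm]; exact Rat.mul_den_eq_num (w s)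
      have hn : 0 ≤ (w s).num := Rat.num_nonneg.2 (hw s)
      refine ⟨τ.den * (∏ t ∈ Finset.univ.erase s, (w t).den) * q * (w s).num.toNat, ?_⟩
      have h2 : (((w s).num.toNat : ℕ) : ℚ) = ((w s).num : ℚ) := by
        have : (((w s).num.toNat : ℕ) : ℤ) = (w s).num := Int.toNat_of_nonneg hn
        exact_mod_cast this
      push_cast
      rw [h2, ← hws, ← Finset.mul_prod_erase Finset.univ (fun t => ((w t).den : ℚ))
        (Finset.mem_univ s)]
      ring

/-- The expansion of a divided power modulo the maximal ideal. -/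
lemma expand_mod {n : ℕ} {Γ₀ : Type*} [LinearOrderedCommGroupWithZero Γ₀] {v : Valuation ℂ Γ₀}
    {p : ℕ} (hp : Pr v p) (h : MvPolynomial (Fin n) ℂ) (hv : ∀ s ∈ h.support, v (h.coeff s) = 1)
    (τ : ℚ) (hτ : 0 < τ) (m : ℕ) (hm : (m : ℚ) * τ = (p : ℚ) - 1)
    (hdeg : 1 ≤ τ ∨ ∀ s ∈ h.support, 2 ≤ s.degree)
    (w : h.support → ℚ) (hw : IsRep h.support τ w)
    (huniq : ∀ w', IsRep h.support τ w' → w' = w)
    (hk : ∀ s, ∃ k : ℕ, (k : ℚ) = m * w s) :
    ∃ (e : Fin n →₀ ℕ) (c : ℂ), Box p e ∧ v c = 1 ∧ InM v (dpow h m - monomial e c) ∧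
      ∀ i, ((e i : ℕ) : ℚ) = m * ∑ s, w s * ((s.1 i : ℕ) : ℚ) := by
  classical
  have hp1 : 1 < p := hp.prime.one_lt
  have hpq : (0 : ℚ) < (p : ℚ) - 1 := by
    have : (1 : ℚ) < (p : ℚ) := by exact_mod_cast hp1
    linarith
  have hm0 : (0 : ℚ) < m := by
    by_contra hcon
    push Not at hcon
    have : (m : ℚ) * τ ≤ 0 := mul_nonpos_of_nonpos_of_nonneg hcon hτ.le
    rw [hm] at this
    linarith
  choose k hk using hk
  let a₀ : (Fin n →₀ ℕ) → ℕ := fun s => if hs : s ∈ h.support then k ⟨s, hs⟩ else 0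
  have ha₀ : ∀ s : h.support, a₀ s.1 = k s := fun s => dif_pos s.2
  have ha₀' : ∀ s, s ∉ h.support → a₀ s = 0 := fun s hs => dif_neg hs
  have ha₀sum : ∑ s ∈ h.support, a₀ s = m := by
    have h1 : (∑ s ∈ h.support, (a₀ s : ℚ)) = m := by
      rw [← Finset.sum_coe_sort h.support (fun s => (a₀ s : ℚ))]
      have : ∀ s : h.support, (a₀ s.1 : ℚ) = m * w s := fun s => by rw [ha₀, hk]
      rw [Finset.sum_congr rfl fun s _ => this s, ← Finset.mul_sum, hw.2.1, mul_one]
    exact_mod_cast h1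
  have ha₀mem : a₀ ∈ h.support.piAntidiag m := by
    rw [Finset.mem_piAntidiag]
    refine ⟨ha₀sum, fun s hs => ?_⟩
    by_contra hns
    exact hs (ha₀' s hns)
  -- exponents of the terms
  have hexp : ∀ a : (Fin n →₀ ℕ) → ℕ, ∀ i,
      (((∑ s ∈ h.support, a s • s) i : ℕ) : ℚ) =
        m * ∑ s : h.support, ((a s.1 : ℚ) / m) * ((s.1 i : ℕ) : ℚ) := by
    intro a i
    rw [Finset.sum_coe_sort h.support (fun s => ((a s : ℚ) / m) * ((s i : ℕ) : ℚ)),
      Finset.mul_sum, Finsupp.finsetSum_apply]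
    push_cast
    apply Finset.sum_congr rfl
    intro s _
    have e1 : (a s • (s : Fin n → ℕ)) i = a s * s i := rfl
    rw [e1]
    push_cast
    field_simp
  -- the distinguished exponent
  have he₀ : ∀ i, (((∑ s ∈ h.support, a₀ s • s) i : ℕ) : ℚ) =
      m * ∑ s, w s * ((s.1 i : ℕ) : ℚ) := by
    intro i
    rw [hexp]
    congr 1
    apply Finset.sum_congr rfl
    intro s _
    rw [ha₀, hk]
    field_simp
  have hbox₀ : Box p (∑ s ∈ h.support, a₀ s • s) := by
    intro i
    have h1 := he₀ i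
    have h2 : (((∑ s ∈ h.support, a₀ s • s) i : ℕ) : ℚ) ≤ (p : ℚ) - 1 := by
      rw [h1, ← hm]
      exact mul_le_mul_of_nonneg_left (hw.2.2 i) hm0.le
    have h3 : (((∑ s ∈ h.support, a₀ s • s) i : ℕ) : ℚ) < (p : ℚ) := by linarith
    exact_mod_cast h3
  -- uniqueness
  have huniq' : ∀ a ∈ h.support.piAntidiag m, Box p (∑ s ∈ h.support, a s • s) → a = a₀ := by
    intro a ha hb
    rw [Finset.mem_piAntidiag] at ha
    have hrep : IsRep h.support τ (fun s => (a s.1 : ℚ) / m) := by
      refine ⟨fun s => by positivity, ?_, fun i => ?_⟩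
      · rw [Finset.sum_coe_sort h.support (fun s => (a s : ℚ) / m), ← Finset.sum_div]
        have : (∑ s ∈ h.support, (a s : ℚ)) = m := by exact_mod_cast ha.1
        rw [this, div_self hm0.ne']
      · have h1 := hexp a i
        have h2 : (((∑ s ∈ h.support, a s • s) i : ℕ) : ℚ) ≤ (p : ℚ) - 1 := by
          have h3 : (((∑ s ∈ h.support, a s • s) i : ℕ) : ℚ) + 1 ≤ (p : ℚ) := by
            exact_mod_cast hb i
          linarith
        rw [h1, ← hm] at h2
        exact le_of_mul_le_mul_left h2 hm0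
    have hww := huniq _ hrep
    funext s
    by_cases hs : s ∈ h.support
    · have h1 := congrFun hww ⟨s, hs⟩
      simp only at h1
      have h2 : (a s : ℚ) = (k ⟨s, hs⟩ : ℚ) := by
        rw [hk, ← h1]
        field_simp
      have h3 : a s = k ⟨s, hs⟩ := by exact_mod_cast h2
      rw [h3, ← ha₀ ⟨s, hs⟩]
    · have h1 : a s = 0 := by
        by_contra hne
        exact hs (ha.2 s hne)
      rw [h1, ha₀' s hs]
  -- other terms
  have hother : ∀ a ∈ h.support.piAntidiag m, a ≠ a₀ →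
      InM v (∏ s ∈ h.support, dpow (monomial s (h.coeff s)) (a s)) := by
    intro a ha hne
    have hnb : ¬ Box p (∑ s ∈ h.support, a s • s) := fun hb => hne (huniq' a ha hb)
    rw [Finset.mem_piAntidiag] at ha
    rcases hdeg with hτ1 | hdeg
    · -- small exponents
      have hmp : m < p := by
        have h1 : (m : ℚ) ≤ (p : ℚ) - 1 := by
          rw [← hm]
          nlinarith
        have h2 : (m : ℚ) < p := by linarith
        exact_mod_cast h2
      rw [prod_dpow]
      intro e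
      unfold dp
      rw [coeff_monomial]
      split_ifs with heq
      · rw [map_mul, map_prod]
        have h1 : ∏ s ∈ h.support, v (((a s).factorial : ℂ)⁻¹ * (h.coeff s) ^ (a s)) = 1 := by
          apply Finset.prod_eq_one
          intro s hs
          have hle : a s ≤ m := by
            rw [← ha.1]
            exact Finset.single_le_sum (f := a) (fun _ _ => Nat.zero_le _) hs
          rw [map_mul, map_inv₀, map_pow, hv s hs, hp.fact_eq_one (by omega)]
          simp
        rw [h1, one_mul, ← heq]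
        exact hp.mfact_lt_one hnb
      · simp
    · have h1 : InB v p (∏ s ∈ h.support, dpow (monomial s (h.coeff s)) (a s)) := by
        apply InB.prod hp
        intro s hs
        exact DivB.monomial hp (hv s hs).le s (hdeg s hs) _
      intro e
      by_cases heq : (∑ s ∈ h.support, a s • s) = e
      · rw [← heq]
        exact h1.2 _ hnb
      · rw [prod_dpow]
        unfold dp
        rw [coeff_monomial, if_neg heq]
        simp
  refine ⟨∑ s ∈ h.support, a₀ s • s,
    ∏ s ∈ h.support, ((a₀ s).factorial : ℂ)⁻¹ * (h.coeff s) ^ (a₀ s), hbox₀, ?_, ?_, he₀⟩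
  · rw [map_prod]
    apply Finset.prod_eq_one
    intro s hs
    have hlt : a₀ s < p := by
      by_cases hs0 : s = 0
      · rcases hdeg with hτ1 | hdeg
        · have hmp : m < p := by
            have h1 : (m : ℚ) ≤ (p : ℚ) - 1 := by
              rw [← hm]
              nlinarith
            have h2 : (m : ℚ) < p := by linarith
            exact_mod_cast h2
          have hle : a₀ s ≤ m := by
            rw [← ha₀sum]
            exact Finset.single_le_sum (f := a₀) (fun _ _ => Nat.zero_le _) hs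
          omega
        · have := hdeg s hs
          rw [hs0] at this
          simp at this
      · obtain ⟨i, hi⟩ := exists_pos_of_degree_pos s (by
          rw [Nat.pos_iff_ne_zero]
          intro h0
          exact hs0 ((Finsupp.degree_eq_zero_iff s).1 h0))
        have h1 := hbox₀ i
        rw [Finsupp.finsetSum_apply] at h1
        have h2 : (a₀ s • s) i ≤ ∑ s ∈ h.support, (a₀ s • s) i :=
          Finset.single_le_sum (f := fun s => (a₀ s • s) i) (fun _ _ => Nat.zero_le _) hs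
        have e1 : (a₀ s • s) i = a₀ s * s i := rfl
        rw [e1] at h2
        have h3 : a₀ s ≤ a₀ s * s i := Nat.le_mul_of_pos_right _ hi
        omega
    rw [map_mul, map_inv₀, map_pow, hv s hs, hp.fact_eq_one hlt]
    simp
  · rw [dpow_expand, ← prod_dpow, ← Finset.add_sum_erase _ _ ha₀mem, add_sub_cancel_left]
    apply InM.sum
    intro a ha
    rw [Finset.mem_erase] at ha
    exact hother a ha.2 ha.1

lemma tau_pos {n : ℕ} (S : Finset (Fin n →₀ ℕ)) (τ : ℚ)
    (hdeg : 1 ≤ τ ∨ ∀ s ∈ S, 2 ≤ s.degree) (w : S → ℚ) (hw : IsRep S τ w) : 0 < τ := by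
  rcases hdeg with h | h
  · linarith
  · by_contra hcon
    push Not at hcon
    have h1 : ∑ i : Fin n, ∑ s, w s * ((s.1 i : ℕ) : ℚ) ≤ 0 :=
      Finset.sum_nonpos fun i _ => (hw.2.2 i).trans hcon
    rw [Finset.sum_comm] at h1
    have h2 : ∀ s : S, 2 * w s ≤ ∑ i : Fin n, w s * ((s.1 i : ℕ) : ℚ) := by
      intro s
      rw [← Finset.mul_sum]
      have h3 := h s.1 s.2
      rw [Finsupp.degree_eq_sum] at h3
      have h4 : (2 : ℚ) ≤ ∑ i : Fin n, ((s.1 i : ℕ) : ℚ) := by exact_mod_cast h3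
      nlinarith [hw.1 s]
    have h3 : 2 * ∑ s, w s ≤ 0 := by
      rw [Finset.mul_sum]
      exact (Finset.sum_le_sum fun s _ => h2 s).trans h1
    rw [hw.2.1] at h3
    linarith

/-- Choice of a large prime. -/
lemma exists_prime_params {ι : Type*} [Fintype ι] (X : Finset ℂ) (τ : ℚ) (hτ : 0 < τ) (w : ι → ℚ)
    (hw : ∀ s, 0 ≤ w s) (N : ℕ) :
    ∃ (p m : ℕ) (V : ValuationSubring ℂ), N ≤ m ∧ Pr V.valuation p ∧
      (m : ℚ) * τ = (p : ℚ) - 1 ∧ (∀ s, ∃ k : ℕ, (k : ℚ) = m * w s) ∧
      ∀ x ∈ X, x ≠ 0 → V.valuation x = 1 := by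
  classical
  obtain ⟨K, hK, hKp⟩ := exists_params τ hτ w hw
  obtain ⟨N₀, hN₀, hV⟩ := exists_valuationSubring (X.filter (fun x => x ≠ 0)) (by
    intro x hx
    exact (Finset.mem_filter.1 hx).2)
  obtain ⟨M, hM⟩ := exists_nat_gt (τ * N + 1)
  obtain ⟨p, hp, hlt, hmod⟩ := Nat.exists_prime_gt_modEq_one (N₀ + M + 1) hK
  obtain ⟨m, hm, hk⟩ := hKp p hmod hp.one_lt
  obtain ⟨V, hV1, hV2⟩ := hV p hp (fun hd => by
    have := Nat.le_of_dvd (Nat.pos_of_ne_zero hN₀) hd
    omega)
  refine ⟨p, m, V, ?_, ⟨hp, hV1⟩, hm, hk, fun x hx hx0 => hV2 x (by simp [hx, hx0])⟩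
  have h1 : (M : ℚ) < p := by
    have : M < p := by omega
    exact_mod_cast this
  have h2 : τ * N < m * τ := by rw [hm]; linarith
  have h3 : (N : ℚ) < m := by nlinarith
  have h4 : N < m := by exact_mod_cast h3
  exact h4.le

/-- Part A. -/
theorem partA {n : ℕ} (f : MvPolynomial (Fin n) ℂ) (τ : ℚ)
    (hdeg : 1 ≤ τ ∨ ∀ s ∈ f.support, 2 ≤ s.degree)
    (hu : ∃! w : f.support → ℚ, IsRep f.support τ w) (N : ℕ) :
    ∃ m : ℕ, N ≤ m ∧ facL (f ^ m) ≠ 0 := by
  classical
  obtain ⟨w, hw, huniq⟩ := hu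
  have hτ := tau_pos f.support τ hdeg w hw
  obtain ⟨p, m, V, hNm, hp, hm, hk, hX⟩ :=
    exists_prime_params (f.support.image f.coeff) τ hτ w hw.1 N
  refine ⟨m, hNm, ?_⟩
  have hv : ∀ s ∈ f.support, V.valuation (f.coeff s) = 1 := fun s hs =>
    hX _ (Finset.mem_image_of_mem _ hs) (mem_support_iff.1 hs)
  obtain ⟨e, c, hb, hc, hM, -⟩ := expand_mod hp f hv τ hτ m hm hdeg w hw
    (fun w' hw' => huniq w' hw') hk
  rw [facL_pow]
  apply mul_ne_zero (Nat.cast_ne_zero.2 (Nat.factorial_ne_zero _))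
  refine facL_ne_zero_of_unit (v := V.valuation) ?_ hM
  rw [facL_monomial, map_mul, hc, hp.mfact_eq_one hb, one_mul]

/-- Part B. -/
theorem partB {n : ℕ} (f h : MvPolynomial (Fin n) ℂ) (hf : ∀ s ∈ f.support, 2 ≤ s.degree)
    (φ : Fin n → MvPolynomial (Fin n) ℂ) (hφ0 : ∀ i, (φ i).coeff 0 = 0)
    (hφ1 : (Matrix.of fun i j => (φ i).coeff (Finsupp.single j 1)).det ≠ 0)
    (hh : bind₁ φ f = h) (τ : ℚ)
    (w : h.support → ℚ) (hw : IsRep h.support τ w)
    (hwτ : ∀ i, ∑ s, w s * ((s.1 i : ℕ) : ℚ) = τ)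
    (huniq : ∀ w' : h.support → ℚ, IsRep h.support τ w' → w' = w) (N : ℕ) :
    ∃ m : ℕ, N ≤ m ∧ facL (f ^ m) ≠ 0 := by
  classical
  set g : Matrix (Fin n) (Fin n) ℂ := Matrix.of fun i j => (φ i).coeff (Finsupp.single j 1)
    with hg
  have hφo : ∀ i, Ord 1 (φ i) := by
    intro i s hs
    rw [Nat.one_le_iff_ne_zero]
    intro h0
    rw [Finsupp.degree_eq_zero_iff] at h0
    rw [h0] at hs
    exact hs (hφ0 i)
  have hfo : Ord 2 f := fun s hs => hf s (mem_support_iff.2 hs)
  have hho : ∀ s ∈ h.support, 2 ≤ s.degree := fun s hs =>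
    (Ord.bind hφo hfo) s (by rw [hh]; exact mem_support_iff.1 hs)
  have hτ := tau_pos h.support τ (Or.inr hho) w hw
  let X : Finset ℂ := h.support.image h.coeff ∪ f.support.image f.coeff ∪
    (Finset.univ.biUnion fun i => (φ i).support.image (φ i).coeff) ∪
    (Finset.univ.image fun x : Fin n × Fin n => g x.1 x.2) ∪
    (Finset.univ.image fun x : Fin n × Fin n => g⁻¹ x.1 x.2)
  obtain ⟨p, m, V, hNm, hp, hm, hk, hX⟩ := exists_prime_params X τ hτ w hw.1 N
  refine ⟨m, hNm, ?_⟩
  have hle : ∀ x ∈ X, V.valuation x ≤ 1 := by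
    intro x hx
    by_cases hx0 : x = 0
    · rw [hx0]; simp
    · exact (hX x hx hx0).le
  have hRU : ∀ P : MvPolynomial (Fin n) ℂ, (∀ s ∈ P.support, P.coeff s ∈ X) →
      RU V.valuation P := by
    intro P hP s
    by_cases hs : s ∈ P.support
    · exact hle _ (hP s hs)
    · rw [notMem_support_iff] at hs
      rw [hs]; simp
  have hv : ∀ s ∈ h.support, V.valuation (h.coeff s) = 1 := fun s hs =>
    hX _ (by
      simp only [X, Finset.mem_union]
      exact Or.inl (Or.inl (Or.inl (Or.inl (Finset.mem_image_of_mem _ hs)))))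
      (mem_support_iff.1 hs)
  obtain ⟨e, c, hb, hc, hM, he⟩ := expand_mod hp h hv τ hτ m hm (Or.inr hho) w hw huniq hk
  have hetop : e = cst n (p - 1) := by
    ext i
    have h1 := he i
    rw [hwτ i, hm] at h1
    rw [cst_apply]
    have h2 : ((e i : ℕ) : ℚ) = ((p - 1 : ℕ) : ℚ) := by
      rw [h1, Nat.cast_sub hp.prime.one_lt.le]; simp
    exact_mod_cast h2
  rw [hetop] at hM hb
  have hfRU : RU V.valuation f := hRU f fun s hs => by
    simp only [X, Finset.mem_union]
    exact Or.inl (Or.inl (Or.inl (Or.inr (Finset.mem_image_of_mem _ hs))))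
  have hφRU : ∀ i, RU V.valuation (φ i) := fun i => hRU _ fun s hs => by
    simp only [X, Finset.mem_union]
    exact Or.inl (Or.inl (Or.inr (Finset.mem_biUnion.2 ⟨i, Finset.mem_univ i,
      Finset.mem_image_of_mem _ hs⟩)))
  have hgv : ∀ i j, V.valuation (g i j) ≤ 1 := fun i j => hle _ (by
    simp only [X, Finset.mem_union]
    exact Or.inl (Or.inr (Finset.mem_image.2 ⟨(i, j), Finset.mem_univ _, rfl⟩)))
  have hgv' : ∀ i j, V.valuation (g⁻¹ i j) ≤ 1 := fun i j => hle _ (by
    simp only [X, Finset.mem_union]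
    exact Or.inr (Finset.mem_image.2 ⟨(i, j), Finset.mem_univ _, rfl⟩))
  have hlin : ∀ i, Ord 2 (φ i - linf (g i)) := by
    intro i s hs
    by_contra hlt
    push Not at hlt
    apply hs
    rw [coeff_sub]
    by_cases h0 : s.degree = 0
    · rw [Finsupp.degree_eq_zero_iff] at h0
      rw [h0, hφ0 i]
      have : (linf (g i)).coeff 0 = 0 := by
        by_contra hne
        have := linf_ord (g i) 0 hne
        simp at this
      rw [this, sub_zero]
    · have h1 : s.degree = 1 := by omega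
      obtain ⟨j, hj⟩ := exists_pos_of_degree_pos s (by omega)
      have h2 := degree_sub_single s j hj
      have h3 : (s - Finsupp.single j 1).degree = 0 := by omega
      rw [Finsupp.degree_eq_zero_iff] at h3
      have h4 : s = Finsupp.single j 1 := by
        have e1 : (s - Finsupp.single j 1) + Finsupp.single j 1 = s := by
          rw [tsub_add_cancel_of_le]
          intro l
          by_cases hl : l = j
          · subst hl; simp; omega
          · rw [Finsupp.single_eq_of_ne hl]; exact Nat.zero_le _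
        rw [← e1, h3, zero_add]
      rw [h4]
      have h5 : (linf (g i)).coeff (Finsupp.single j 1) = g i j := by
        unfold linf
        rw [coeff_sum, Finset.sum_eq_single j]
        · rw [coeff_C_mul, coeff_X, if_pos rfl, mul_one]
        · intro l _ hl
          rw [coeff_C_mul, coeff_X, if_neg, mul_zero]
          intro heq
          exact hl ((Finsupp.single_left_inj one_ne_zero).1 heq)
        · intro hj'; exact absurd (Finset.mem_univ j) hj'
      rw [h5, hg, Matrix.of_apply, sub_self]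
  have hdet : IsUnit g.det := isUnit_iff_ne_zero.2 hφ1
  have hgh : g * g⁻¹ = 1 := Matrix.mul_nonsing_inv _ hdet
  have hB : InB V.valuation p (dpow f m) := DivB.of_RU hp hfRU hfo m
  have hPc : InM V.valuation (bind₁ φ (dpow f m) - monomial (cst n (p - 1)) c) := by
    rw [bind_dpow, hh]; exact hM
  have htr := transfer hp φ hφRU g g⁻¹ hlin hgh hgv hgv' hB c hc hPc
  rw [facL_pow]
  apply mul_ne_zero (Nat.cast_ne_zero.2 (Nat.factorial_ne_zero _))
  refine facL_ne_zero_of_unit (v := V.valuation)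
    (Q := monomial (cst n (p - 1)) ((dpow f m).coeff (cst n (p - 1)))) ?_ ?_
  · rw [facL_monomial]
    exact (htr (cst n (p - 1))).2 rfl
  · intro e'
    rw [dp_sub]
    by_cases he' : e' = cst n (p - 1)
    · rw [he']
      unfold dp
      rw [coeff_monomial, if_pos rfl, sub_self]; simp
    · have : dp (monomial (cst n (p - 1)) ((dpow f m).coeff (cst n (p - 1)))) e' = 0 := by
        unfold dp
        rw [coeff_monomial, if_neg (Ne.symm he'), zero_mul]
      rw [this, sub_zero]
      exact (htr e').1 he'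

end Pool.Agent.Helper88.FC
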