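import Pool.Agent.Helper88.FC.Div

set_option autoImplicit false

namespace Pool.Agent.Helper88.FC

open scoped BigOperators
open MvPolynomial Finset

/-- The exponent vector with all entries equal to `k`. -/
noncomputable def cst (n k : ℕ) : Fin n →₀ ℕ := Finsupp.equivFunOnFinite.symm (fun _ => k)

@[simp] lemma cst_apply (n k : ℕ) (i : Fin n) : cst n k i = k := rfl

lemma degree_cst (n k : ℕ) : (cst n k).degree = n * k := by
  rw [Finsupp.degree_eq_sum]; simp

section Val

variable {Γ₀ : Type*} [LinearOrderedCommGroupWithZero Γ₀] {v : Valuation ℂ Γ₀} {p : ℕ}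
variable {n : ℕ} {P Q : MvPolynomial (Fin n) ℂ}

lemma box_le_degree {e : Fin n →₀ ℕ} (hp : 0 < p) (h : Box p e) :
    e.degree ≤ n * (p - 1) := by
  rw [Finsupp.degree_eq_sum]
  calc ∑ i, e i ≤ ∑ _i : Fin n, (p - 1) := Finset.sum_le_sum fun i _ => by
        have := h i; omega
    _ = _ := by simp

lemma box_eq_of_degree {e : Fin n →₀ ℕ} (hp : 0 < p) (h : Box p e)
    (hd : n * (p - 1) ≤ e.degree) : e = cst n (p - 1) := by
  have h1 : ∀ i ∈ (Finset.univ : Finset (Fin n)), e i ≤ p - 1 := fun i _ => by
    have := h i; omega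
  have h2 : ∑ i, e i = ∑ _i : Fin n, (p - 1) := by
    refine le_antisymm (Finset.sum_le_sum h1) ?_
    rw [Finsupp.degree_eq_sum] at hd
    simpa using hd
  ext i
  exact (Finset.sum_eq_sum_iff_of_le h1).1 h2 i (Finset.mem_univ i)

lemma RU.inM_of_ord (hp : Pr v p) (hP : RU v P) (ho : Ord (n * (p - 1) + 1) P) : InM v P := by
  intro e
  by_cases hb : Box p e
  · have : P.coeff e = 0 := by
      by_contra hne
      have h1 := ho e hne
      have h2 := box_le_degree hp.prime.pos hb
      omega
    unfold dp
    rw [this]; simp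
  · exact (hP.inB hp).2 e hb

/-- Two polynomials agree up to terms of degree larger than `k`. -/
def Eqv {n : ℕ} (k : ℕ) (P Q : MvPolynomial (Fin n) ℂ) : Prop :=
  Ord k P ∧ Ord k Q ∧ Ord (k + 1) (P - Q)

lemma Eqv.mul {k l : ℕ} {P P' Q Q' : MvPolynomial (Fin n) ℂ} (h : Eqv k P P')
    (h' : Eqv l Q Q') : Eqv (k + l) (P * Q) (P' * Q') := by
  refine ⟨h.1.mul h'.1, h.2.1.mul h'.2.1, ?_⟩
  have : P * Q - P' * Q' = (P - P') * Q + P' * (Q - Q') := by ring
  rw [this]
  apply Ord.add
  · exact (h.2.2.mul h'.1).mono (by omega)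
  · exact (h.2.1.mul h'.2.2).mono (by omega)

lemma Eqv.one : Eqv 0 (1 : MvPolynomial (Fin n) ℂ) 1 :=
  ⟨Ord.any, Ord.any, by rw [sub_self]; exact Ord.zero⟩

lemma Eqv.pow {k : ℕ} (h : Eqv k P Q) (m : ℕ) : Eqv (m * k) (P ^ m) (Q ^ m) := by
  induction m with
  | zero => simpa using Eqv.one
  | succ m ih => rw [pow_succ, pow_succ, Nat.succ_mul]; exact ih.mul h

lemma Eqv.prod {ι : Type*} (s : Finset ι) (F G : ι → MvPolynomial (Fin n) ℂ) (c : ι → ℕ)
    (h : ∀ i ∈ s, Eqv (c i) (F i) (G i)) :
    Eqv (∑ i ∈ s, c i) (∏ i ∈ s, F i) (∏ i ∈ s, G i) := by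
  classical
  induction s using Finset.induction_on with
  | empty => simpa using Eqv.one
  | insert a s ha ih =>
    rw [Finset.prod_insert ha, Finset.prod_insert ha, Finset.sum_insert ha]
    exact (h a (by simp)).mul (ih fun i hi => h i (by simp [hi]))

/-- The linear form with the given coefficients. -/
noncomputable def linf (g : Fin n → ℂ) : MvPolynomial (Fin n) ℂ := ∑ j, C (g j) * X j

lemma linf_RU {g : Fin n → ℂ} (hg : ∀ j, v (g j) ≤ 1) : RU v (linf g) := by
  unfold linf
  have : ∀ s : Finset (Fin n), RU v (∑ j ∈ s, C (g j) * X j : MvPolynomial (Fin n) ℂ) := by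
    intro s
    classical
    induction s using Finset.induction_on with
    | empty =>
      intro e; simp
    | insert a s ha ih =>
      rw [Finset.sum_insert ha]
      exact ((RU.C (hg a)).mul (RU.X a)).add ih
  exact this _

lemma linf_ord (g : Fin n → ℂ) : Ord 1 (linf g) := by
  unfold linf
  apply Ord.sum
  intro j _
  have := (Ord.any (P := (C (g j) : MvPolynomial (Fin n) ℂ))).mul (Ord.X (n := n) j)
  simpa using this

lemma bind_linf (g : Fin n → ℂ) (ψ : Fin n → MvPolynomial (Fin n) ℂ) :
    bind₁ ψ (linf g) = ∑ j, C (g j) * ψ j := by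
  unfold linf
  rw [map_sum]
  apply Finset.sum_congr rfl
  intro j _
  rw [map_mul, bind₁_C_right, bind₁_X_right]

lemma linf_comp (g h : Matrix (Fin n) (Fin n) ℂ) (i : Fin n) :
    bind₁ (fun j => linf (h j)) (linf (g i)) = linf ((g * h) i) := by
  rw [bind_linf]
  unfold linf
  simp_rw [Finset.mul_sum, Matrix.mul_apply, map_sum, Finset.sum_mul]
  rw [Finset.sum_comm]
  apply Finset.sum_congr rfl
  intro k _
  apply Finset.sum_congr rfl
  intro j _
  rw [C_mul]; ring

lemma linf_one (i : Fin n) : linf ((1 : Matrix (Fin n) (Fin n) ℂ) i) = X i := by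
  classical
  unfold linf
  rw [Finset.sum_eq_single i]
  · simp
  · intro j _ hj
    rw [Matrix.one_apply_ne hj.symm]; simp
  · simp

/-- The product of the `(p-1)`-th powers of independent linear forms is not divisible. -/
lemma not_inM_linf (hp : Pr v p) (g h : Matrix (Fin n) (Fin n) ℂ) (hgh : g * h = 1)
    (hh : ∀ i j, v (h i j) ≤ 1) :
    ¬ InM v (∏ i, (linf (g i)) ^ (p - 1)) := by
  intro hM
  have h1 : InM v (bind₁ (fun j => linf (h j)) (∏ i, (linf (g i)) ^ (p - 1))) :=
    InM.bind (fun j => DivG.of_RU (linf_RU (hh j)) (linf_ord _)) hM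
  rw [map_prod] at h1
  simp_rw [map_pow, linf_comp, hgh, linf_one] at h1
  have h2 := h1 (cst n (p - 1))
  have h3 : (∏ i : Fin n, (X i : MvPolynomial (Fin n) ℂ) ^ (p - 1)) =
      monomial (cst n (p - 1)) 1 := by
    rw [monomial_eq, C_1, one_mul]
    symm
    exact Finsupp.prod_fintype _ _ fun i => by rw [pow_zero]
  rw [h3] at h2
  unfold dp at h2
  rw [coeff_monomial, if_pos rfl, one_mul, hp.mfact_eq_one] at h2
  · exact lt_irrefl _ h2
  · intro i
    rw [cst_apply]
    have := hp.prime.pos
    omega

/-- The same for a polynomial map with invertible linear part. -/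
lemma not_inM_prod (hp : Pr v p) (φ : Fin n → MvPolynomial (Fin n) ℂ) (hφ : ∀ i, RU v (φ i))
    (g h : Matrix (Fin n) (Fin n) ℂ) (hg : ∀ i, Ord 2 (φ i - linf (g i)))
    (hgh : g * h = 1) (hgv : ∀ i j, v (g i j) ≤ 1) (hh : ∀ i j, v (h i j) ≤ 1) :
    ¬ InM v (∏ i, (φ i) ^ (p - 1)) := by
  intro hM
  have ho : ∀ i, Ord 1 (φ i) := fun i => by
    have : φ i = (φ i - linf (g i)) + linf (g i) := by ring
    rw [this]
    exact ((hg i).mono (by norm_num)).add (linf_ord _)
  have h1 : Eqv (∑ _i : Fin n, (p - 1) * 1) (∏ i, (φ i) ^ (p - 1))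
      (∏ i, (linf (g i)) ^ (p - 1)) := by
    apply Eqv.prod
    intro i _
    exact Eqv.pow ⟨ho i, linf_ord _, hg i⟩ _
  have h2 : RU v ((∏ i, (φ i) ^ (p - 1)) - ∏ i, (linf (g i)) ^ (p - 1)) := by
    apply RU.sub
    · exact RU.prod _ _ fun i _ => (hφ i).pow _
    · exact RU.prod _ _ fun i _ => (linf_RU (hgv i)).pow _
  have h3 := h2.inM_of_ord hp (by
    have := h1.2.2
    simpa using this)
  have h4 := hM.sub h3
  rw [sub_sub_cancel] at h4
  exact not_inM_linf hp g h hgh hh h4

/-- The key transfer statement: if the transform of `P` is a unit times the top monomial, then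
so is `P`. -/
lemma transfer (hp : Pr v p) (φ : Fin n → MvPolynomial (Fin n) ℂ) (hφ : ∀ i, RU v (φ i))
    (g h : Matrix (Fin n) (Fin n) ℂ) (hg : ∀ i, Ord 2 (φ i - linf (g i)))
    (hgh : g * h = 1) (hgv : ∀ i j, v (g i j) ≤ 1) (hh : ∀ i j, v (h i j) ≤ 1)
    (hP : InB v p P) (c : ℂ) (hc : v c = 1)
    (hPc : InM v (bind₁ φ P - monomial (cst n (p - 1)) c)) :
    ∀ e, (e ≠ cst n (p - 1) → v (dp P e) < 1) ∧ (e = cst n (p - 1) → v (dp P e) = 1) := by
  classical
  have hpos := hp.prime.pos
  have ho : ∀ i, Ord 1 (φ i) := fun i => by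
    have : φ i = (φ i - linf (g i)) + linf (g i) := by ring
    rw [this]
    exact ((hg i).mono (by norm_num)).add (linf_ord _)
  have hD : ∀ i, DivG v (φ i) := fun i => DivG.of_RU (hφ i) (ho i)
  have htop : Box p (cst n (p - 1)) := fun i => by rw [cst_apply]; omega
  -- the set of exponents with unit coefficient
  have hne : ∃ e, Box p e ∧ v (P.coeff e) = 1 := by
    by_contra hcon
    push Not at hcon
    have hM : InM v P := by
      intro e
      by_cases hb : Box p e
      · have h1 : v (P.coeff e) ≤ 1 := by
          have := hP.1 e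
          unfold dp at this
          rwa [map_mul, hp.mfact_eq_one hb, mul_one] at this
        unfold dp
        rw [map_mul, hp.mfact_eq_one hb, mul_one]
        exact lt_of_le_of_ne h1 (hcon e hb)
      · exact hP.2 e hb
    have h2 := (hM.bind hD).sub hPc
    rw [sub_sub_cancel] at h2
    have h3 := h2 (cst n (p - 1))
    unfold dp at h3
    rw [coeff_monomial, if_pos rfl, map_mul, hc, hp.mfact_eq_one htop, one_mul] at h3
    exact lt_irrefl _ h3
  -- choose one of minimal degree
  have hex : ∃ d : ℕ, ∃ e, Box p e ∧ v (P.coeff e) = 1 ∧ e.degree = d := by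
    obtain ⟨e, h1, h2⟩ := hne
    exact ⟨_, e, h1, h2, rfl⟩
  have hmin := Nat.find_spec hex
  obtain ⟨e, heb, hev, hed⟩ := hmin
  have hmin' : ∀ e', Box p e' → e'.degree < e.degree → v (P.coeff e') < 1 := by
    intro e' hb' hd'
    rw [hed] at hd'
    have := Nat.find_min hex hd'
    push Not at this
    have h1 : v (P.coeff e') ≤ 1 := by
      have := hP.1 e'
      unfold dp at this
      rwa [map_mul, hp.mfact_eq_one hb', mul_one] at this
    exact lt_of_le_of_ne h1 fun hh' => this e' hb' hh' rfl
  have hle : e ≤ cst n (p - 1) := fun i => by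
    have := heb i; rw [cst_apply]; omega
  have key : e = cst n (p - 1) := by
    by_contra hneq
    let t := cst n (p - 1) - e
    have hte : t + e = cst n (p - 1) := tsub_add_cancel_of_le hle
    have ht0 : 1 ≤ t.degree := by
      rw [Nat.one_le_iff_ne_zero]
      intro h0
      rw [Finsupp.degree_eq_zero_iff] at h0
      apply hneq
      rw [← hte, h0, zero_add]
    -- multiply by the complementary monomial
    have h1 : InM v (monomial t 1 * P - C (P.coeff e) * monomial (cst n (p - 1)) 1) := by
      intro e'
      rw [dp_sub]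
      by_cases hb : Box p e'
      · by_cases he' : e' = cst n (p - 1)
        · subst he'
          have : dp (monomial t 1 * P) (cst n (p - 1)) -
              dp (C (P.coeff e) * monomial (cst n (p - 1)) 1) (cst n (p - 1)) = 0 := by
            unfold dp
            rw [← hte, coeff_monomial_mul, hte, coeff_C_mul, coeff_monomial, if_pos rfl]
            ring
          rw [this]; simp
        · have h2 : dp (C (P.coeff e) * monomial (cst n (p - 1)) 1) e' = 0 := by
            unfold dp
            rw [coeff_C_mul, coeff_monomial, if_neg (Ne.symm he')]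
            ring
          rw [h2, sub_zero]
          by_cases hle' : t ≤ e'
          · have h3 : e' = t + (e' - t) := (add_tsub_cancel_of_le hle').symm
            have hb2 : Box p (e' - t) := fun i => by
              have := hb i
              simp only [Finsupp.tsub_apply]
              omega
            have hdeg : (e' - t).degree < e.degree := by
              have h4 : e'.degree = t.degree + (e' - t).degree := by
                conv_lhs => rw [h3]
                rw [map_add]
              have h5 : (cst n (p - 1)).degree = t.degree + e.degree := by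
                rw [← hte, map_add]
              have h6 : e'.degree < (cst n (p - 1)).degree := by
                by_contra hge
                push Not at hge
                rw [degree_cst] at hge
                exact he' (box_eq_of_degree hpos hb hge)
              omega
            have h7 := hmin' _ hb2 hdeg
            unfold dp
            rw [h3, coeff_monomial_mul, one_mul, ← h3, map_mul]
            exact mul_lt_one_of_nonneg_of_lt_one_left zero_le h7 (v_nat v _)
          · unfold dp
            rw [coeff_monomial_mul', if_neg hle']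
            simp
      · have h2 : dp (C (P.coeff e) * monomial (cst n (p - 1)) 1) e' = 0 := by
          unfold dp
          rw [coeff_C_mul, coeff_monomial, if_neg]
          · ring
          · intro hh'; exact hb (hh' ▸ htop)
        rw [h2, sub_zero]
        exact (((RU.monomial (by simp) t).inB hp).mul hp hP).2 e' hb
    have h2 := h1.bind hD
    rw [map_sub, map_mul, map_mul, bind₁_C_right] at h2
    -- the other computation
    have h3 : InM v (bind₁ φ (monomial t 1) * bind₁ φ P) := by
      have e1 : bind₁ φ (monomial t 1) * bind₁ φ P =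
          bind₁ φ (monomial t 1) * (bind₁ φ P - monomial (cst n (p - 1)) c) +
          bind₁ φ (monomial t 1) * monomial (cst n (p - 1)) c := by ring
      rw [e1]
      have hRt : RU v (bind₁ φ (monomial t 1)) := by
        rw [bind₁_monomial, C_1, one_mul]
        exact RU.prod _ _ fun i _ => (hφ i).pow _
      apply InM.add
      · exact InM.mul_left hRt.inG hPc
      · apply RU.inM_of_ord hp
        · exact hRt.mul (RU.monomial hc.le _)
        · have o1 : Ord 1 (bind₁ φ (monomial t 1)) :=
            (Ord.monomial t).bind ho |>.mono ht0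
          have o2 := o1.mul (Ord.monomial (c := c) (cst n (p - 1)))
          rw [degree_cst] at o2
          exact o2.mono (by omega)
    have h4 := h3.sub h2
    rw [sub_sub_cancel] at h4
    have h5 : bind₁ φ (monomial (cst n (p - 1)) 1) = ∏ i, (φ i) ^ (p - 1) := by
      rw [bind₁_monomial, C_1, one_mul]
      refine (Finset.prod_subset (Finset.subset_univ _) fun i _ hi => ?_).trans ?_
      · rw [Finsupp.notMem_support_iff.1 hi, pow_zero]
      · rfl
    rw [h5] at h4
    apply not_inM_prod hp φ hφ g h hg hgh hgv hh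
    intro e'
    have h6 := h4 e'
    rw [dp_C_mul, map_mul, hev, one_mul] at h6
    exact h6
  have hdegmin : ∀ e', Box p e' → e' ≠ cst n (p - 1) → v (P.coeff e') < 1 := by
    intro e' hb' hne'
    apply hmin' e' hb'
    rw [key, degree_cst]
    by_contra hge
    push Not at hge
    exact hne' (box_eq_of_degree hpos hb' hge)
  intro e'
  refine ⟨fun hne' => ?_, fun heq => ?_⟩
  · by_cases hb : Box p e'
    · unfold dp
      rw [map_mul]
      exact mul_lt_one_of_nonneg_of_lt_one_left zero_le (hdegmin e' hb hne') (v_nat v _)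
    · exact hP.2 e' hb
  · rw [heq]
    rw [key] at hev
    unfold dp
    rw [map_mul, hev, hp.mfact_eq_one htop, one_mul]

end Val

end Pool.Agent.Helper88.FC
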